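import Mathlib
import Pool.Graph.R_pool_sql_team_seeded_c8625f6e.K4H96.HS.Free

/-!
# Hard disks: convexity of the free energy, statements with paper proofs in the docstrings
-/

set_option autoImplicit false

open MeasureTheory Set Filter

namespace Pool.Agent.H610.HD

open Pool.Agent.K4H96.HS

/-- **Two distant regions.**

Paper proof. (`Λ₁`, `Λ₂` are disjoint since `r > 0`.) For a subset `A` of `Fin (N₁ + N₂)` with `N₁`
elements let `E A` be the set of the `x ∈ Conf (N₁+N₂) d r (Λ₁ ∪ Λ₂)` with `x i ∈ Λ₁` for `i ∈ A` and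
`x i ∈ Λ₂` for `i ∉ A`. The sets `E A` are disjoint for different `A` (as `Λ₁ ∩ Λ₂ = ∅`), measurable,
and contained in the right-hand set. Choose a bijection `Fin N₁ ⊕ Fin N₂ ≃ Fin (N₁ + N₂)` which maps the
left part onto `A`; the induced measurable equivalence of
`(Fin N₁ → _) × (Fin N₂ → _)` with `Fin (N₁ + N₂) → _` preserves the volume
(`volume_measurePreserving_sumPiEquivProdPi`, `volume_measurePreserving_piCongrLeft`) and maps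
`Conf N₁ d r Λ₁ ×ˢ Conf N₂ d r Λ₂` onto `E A` (mixed pairs have distance `≥ r` by hypothesis). So
`volume (E A)` is the product of the two volumes; there are `(N₁+N₂).choose N₁` sets `A`. -/
def S_split : Prop := ∀ (d N₁ N₂ : ℕ) (r : ℝ) (Λ₁ Λ₂ : Set (Fin d → ℝ)), 0 < r →
  IsCompact Λ₁ → IsCompact Λ₂ →
  (∀ y ∈ Λ₁, ∀ z ∈ Λ₂, r ^ 2 ≤ ∑ k, (y k - z k) ^ 2) →
  ((N₁ + N₂).choose N₁ : ENNReal) * (volume (Conf N₁ d r Λ₁) * volume (Conf N₂ d r Λ₂)) ≤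
    volume (Conf (N₁ + N₂) d r (Λ₁ ∪ Λ₂))

/-- **Four squares in a square.**

Paper proof (assume `h : S_split`). Write `Z(Λ, N) = vol (Conf N 2 (2a) Λ) / N!`. `S_split` says
`Z(Λ₁, N₁) Z(Λ₂, N₂) ≤ Z(Λ₁ ∪ Λ₂, N₁ + N₂)` for compact `Λ₁`, `Λ₂` at distance `≥ 2a`. The volume of
`Conf N 2 r Λ` is invariant under translations of `Λ` and monotone in `Λ`. Apply this to the squares
`[0,L] × [0,L]`, `[L+2a, 2L+2a] × [0,L]` (union `U`, `N₁ + N₂` particles: `Z(U, N₁+N₂) ≥ Z₁ Z₂`), and then to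
`U` and `U + (0, L+2a)`: `Z([0,2L+2a]², 2N₁+2N₂) ≥ (Z₁ Z₂)²`. -/
def S_four : Prop := ∀ (a L : ℝ) (N₁ N₂ : ℕ), 0 < a → 0 < L →
  Zpart 2 a L N₁ ^ 2 * Zpart 2 a L N₂ ^ 2 ≤ Zpart 2 a (2 * L + 2 * a) (2 * N₁ + 2 * N₂)

/-- **Midpoint convexity of the free energy per volume.**

Paper proof (assume `h : S_four`). For `L → ∞` let `N_i = ⌊ρ_i L²⌋₊`. Then `(N_i, L)` tends to the filter
`thermo 2 ρ_i` and `(2N₁+2N₂, 2L+2a)` to `thermo 2 ((ρ₁+ρ₂)/2)` (`tendsto_thermo`). The partition functions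
are eventually positive, and by `S_four`
`-log Z(2L+2a, 2N₁+2N₂) ≤ -2 log Z(L,N₁) - 2 log Z(L,N₂)`. Divide by `L²` and let `L → ∞`:
`2(ρ₁+ρ₂) f ≤ 2 ρ₁ f₁ + 2 ρ₂ f₂`. -/
def S_mid : Prop := ∀ a ρ₁ ρ₂ f₁ f₂ f : ℝ, 0 < a → 0 < ρ₁ → 0 < ρ₂ →
  IsFreeEnergy 2 a ρ₁ f₁ → IsFreeEnergy 2 a ρ₂ f₂ → IsFreeEnergy 2 a ((ρ₁ + ρ₂) / 2) f →
  (ρ₁ + ρ₂) * f ≤ ρ₁ * f₁ + ρ₂ * f₂

end Pool.Agent.H610.HD
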