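import Pool.Agent.H610.HD.Stm

/-!
# The number of rounded configurations

Every configuration is encoded by a function from the unit squares to a set of codes, of bounded total
weight.
-/

set_option autoImplicit false

open MeasureTheory Set Filter

namespace Pool.Agent.H610.HD

abbrev Pt := ℤ × ℤ
abbrev GoodC := (Pt × Pt) × ((ℕ × ℕ) × (Bool × Pt))
abbrev Code := Option (Pt ⊕ GoodC)

/-- the weight of a code -/
noncomputable def wt (δ : ℝ) : Code → ℝ
  | none => 1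
  | some (Sum.inl _) => δ ^ 2
  | some (Sum.inr c) => Real.exp (-(c.2.1.1 : ℝ)) * Real.exp (-(c.2.1.2 : ℝ))

theorem wt_nonneg (δ : ℝ) (c : Code) : 0 ≤ wt δ c := by
  match c with
  | none => exact zero_le_one
  | some (Sum.inl _) => exact sq_nonneg δ
  | some (Sum.inr _) => exact mul_nonneg (Real.exp_nonneg _) (Real.exp_nonneg _)

/-- a square of lattice points -/
noncomputable def bx (k : ℤ) : Finset Pt := Finset.Icc (-k) k ×ˢ Finset.Icc (-k) k

theorem mem_bx {k : ℤ} {p : Pt} : p ∈ bx k ↔ |p.1| ≤ k ∧ |p.2| ≤ k := by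
  unfold bx
  rw [Finset.mem_product, Finset.mem_Icc, Finset.mem_Icc, abs_le, abs_le]

theorem card_bx (k : ℕ) : (bx k).card = (2 * k + 1) ^ 2 := by
  unfold bx
  rw [Finset.card_product, Int.card_Icc, pow_two]
  have : ((k : ℤ) + 1 - -(k : ℤ)).toNat = 2 * k + 1 := by omega
  rw [this]

attribute [irreducible] bx

/-- the codes -/
noncomputable def CS (T : ℤ) (m₁ : ℕ) : Finset Code :=
  Finset.insertNone ((Finset.Icc 0 T ×ˢ Finset.Icc 0 T).disjSum
    ((bx 3 ×ˢ bx 3) ×ˢ ((Finset.range m₁ ×ˢ Finset.range m₁) ×ˢ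
        ((Finset.univ : Finset Bool) ×ˢ bx 100))))

theorem sum_exp_le (m : ℕ) : ∑ i ∈ Finset.range m, Real.exp (-(i : ℝ)) ≤ 2 := by
  have h1 : ∀ i ∈ Finset.range m, Real.exp (-(i : ℝ)) ≤ (1 / 2 : ℝ) ^ i := by
    intro i _
    have h2 : Real.exp (-(i : ℝ)) = Real.exp (-1) ^ i := by
      rw [← Real.exp_nat_mul]
      congr 1
      ring
    rw [h2]
    refine pow_le_pow_left₀ (Real.exp_nonneg _) ?_ i
    rw [Real.exp_neg, one_div]
    refine inv_anti₀ (by norm_num) ?_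
    have := Real.add_one_le_exp (1 : ℝ)
    linarith
  refine (Finset.sum_le_sum h1).trans ?_
  have h3 := geom_sum_eq (show (1 / 2 : ℝ) ≠ 1 by norm_num) m
  rw [h3]
  have : (0 : ℝ) ≤ (1 / 2) ^ m := by positivity
  rw [div_le_iff_of_neg (by norm_num)]
  linarith

theorem sum_wt_le {δ : ℝ} (hδ : 0 < δ) (hδ' : δ ≤ 1 / 100) (m₁ : ℕ) :
    ∑ c ∈ CS (⌊1 / δ⌋ + 1) m₁, wt δ c ≤ 10 ^ 9 := by
  unfold CS
  rw [Finset.sum_insertNone, Finset.sum_disjSum]
  have hT : (0 : ℝ) < 1 / δ := by positivity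
  have hfl : (⌊1 / δ⌋ : ℝ) ≤ 1 / δ := Int.floor_le _
  have hfl0 : 0 ≤ ⌊1 / δ⌋ := Int.floor_nonneg.mpr hT.le
  have h1 : ∑ x ∈ Finset.Icc (0 : ℤ) (⌊1 / δ⌋ + 1) ×ˢ Finset.Icc (0 : ℤ) (⌊1 / δ⌋ + 1),
      wt δ (some (Sum.inl x)) ≤ 2 := by
    simp only [wt]
    rw [Finset.sum_const, Finset.card_product, Int.card_Icc, nsmul_eq_mul]
    have h2 : (((⌊1 / δ⌋ + 1 + 1 - 0).toNat : ℕ) : ℝ) ≤ 1 / δ + 2 := by
      have h3 : (((⌊1 / δ⌋ + 1 + 1 - 0).toNat : ℕ) : ℤ) = ⌊1 / δ⌋ + 2 := by omega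
      have h4 : (((⌊1 / δ⌋ + 1 + 1 - 0).toNat : ℕ) : ℝ) = ((⌊1 / δ⌋ + 2 : ℤ) : ℝ) := by
        exact_mod_cast congrArg (Int.cast : ℤ → ℝ) h3
      rw [h4]
      push_cast
      linarith
    push_cast
    have h5 : (((⌊1 / δ⌋ + 1 + 1 - 0).toNat : ℕ) : ℝ) * δ ≤ 1 + 2 * δ := by
      calc _ ≤ (1 / δ + 2) * δ := by gcongr
        _ = 1 + 2 * δ := by field_simp
    have h6 : (0 : ℝ) ≤ (((⌊1 / δ⌋ + 1 + 1 - 0).toNat : ℕ) : ℝ) * δ := by positivity
    calc _ = ((((⌊1 / δ⌋ + 1 + 1 - 0).toNat : ℕ) : ℝ) * δ) ^ 2 := by ring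
      _ ≤ (1 + 2 * δ) ^ 2 := by gcongr
      _ ≤ 2 := by nlinarith
  have h2 : ∑ x ∈ (bx 3 ×ˢ bx 3) ×ˢ ((Finset.range m₁ ×ˢ Finset.range m₁) ×ˢ
        ((Finset.univ : Finset Bool) ×ˢ bx 100)),
      wt δ (some (Sum.inr x)) ≤ 776022408 := by
    simp only [wt]
    rw [Finset.sum_product]
    simp only
    rw [Finset.sum_const, Finset.sum_product]
    simp only [Finset.sum_const]
    rw [Finset.sum_product]
    simp only
    have c1 : ((Finset.univ : Finset Bool) ×ˢ bx 100).card = 80802 := by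
      rw [Finset.card_product, show (100 : ℤ) = ((100 : ℕ) : ℤ) by norm_num, card_bx,
        Finset.card_univ, Fintype.card_bool]
      norm_num
    have c2 : (bx 3 ×ˢ bx 3).card = 2401 := by
      rw [Finset.card_product, show (3 : ℤ) = ((3 : ℕ) : ℤ) by norm_num, card_bx]
      norm_num
    rw [c1, c2]
    have e1 : ∀ x ∈ Finset.range m₁, ∑ x_1 ∈ Finset.range m₁,
        (80802 • (Real.exp (-(x : ℝ)) * Real.exp (-(x_1 : ℝ)))) =
        80802 * Real.exp (-(x : ℝ)) * ∑ x_1 ∈ Finset.range m₁, Real.exp (-(x_1 : ℝ)) := by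
      intro x _
      rw [Finset.mul_sum]
      refine Finset.sum_congr rfl fun y _ => ?_
      rw [nsmul_eq_mul]
      push_cast
      ring
    rw [Finset.sum_congr rfl e1, ← Finset.sum_mul, ← Finset.mul_sum]
    have h3 := sum_exp_le m₁
    have h4 : 0 ≤ ∑ i ∈ Finset.range m₁, Real.exp (-(i : ℝ)) :=
      Finset.sum_nonneg fun i _ => Real.exp_nonneg _
    rw [nsmul_eq_mul]
    generalize ∑ i ∈ Finset.range m₁, Real.exp (-(i : ℝ)) = s at h3 h4 ⊢
    clear e1 h1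
    have h6 : s * s ≤ 4 := (mul_le_mul h3 h3 h4 (by norm_num)).trans (by norm_num)
    have h7 : ((2401 : ℕ) : ℝ) * (80802 * s * s) = 194005602 * (s * s) := by
      push_cast
      ring
    rw [h7]
    linarith
  have h0 : wt δ none = 1 := rfl
  rw [h0]
  linarith

/-- The counting lemma. -/
theorem count_abs {β κ : Type} [Fintype κ] [DecidableEq κ] (Im : Set β) (A : Finset Code)
    (w : Code → ℝ)
    (hw : ∀ a, 0 ≤ w a) (T₀ : ℝ) (enc : β → κ → Code) (inj : Set.InjOn enc Im)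
    (hmem : ∀ S ∈ Im, ∀ c, enc S c ∈ A) (hwt : ∀ S ∈ Im, Real.exp (-T₀) ≤ ∏ c, w (enc S c)) :
    Im.Finite ∧ (Im.ncard : ℝ) ≤ Real.exp T₀ * (∑ a ∈ A, w a) ^ (Fintype.card κ) := by
  have hsub : enc '' Im ⊆ (Fintype.piFinset fun _ : κ => A : Finset (κ → Code)) := by
    rintro _ ⟨S, hS, rfl⟩
    simpa using hmem S hS
  have hfin' : (enc '' Im).Finite := (Finset.finite_toSet _).subset hsub
  have hfin : Im.Finite := Set.Finite.of_finite_image hfin' inj
  refine ⟨hfin, ?_⟩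
  have h1 : Im.ncard = (enc '' Im).ncard := inj.ncard_image.symm
  rw [h1, Set.ncard_eq_toFinset_card _ hfin']
  have h2 : ∀ f ∈ hfin'.toFinset, (1 : ℝ) ≤ Real.exp T₀ * ∏ c, w (f c) := by
    intro f hf
    rw [Set.Finite.mem_toFinset] at hf
    obtain ⟨S, hS, rfl⟩ := hf
    have h3 := hwt S hS
    have h4 : Real.exp T₀ * Real.exp (-T₀) = 1 := by
      rw [← Real.exp_add]
      simp
    rw [← h4]
    gcongr
  calc ((hfin'.toFinset.card : ℕ) : ℝ) = ∑ f ∈ hfin'.toFinset, (1 : ℝ) := by simp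
    _ ≤ ∑ f ∈ hfin'.toFinset, Real.exp T₀ * ∏ c, w (f c) := Finset.sum_le_sum h2
    _ ≤ ∑ f ∈ Fintype.piFinset fun _ : κ => A, Real.exp T₀ * ∏ c, w (f c) := by
        refine Finset.sum_le_sum_of_subset_of_nonneg ?_ fun f _ _ => ?_
        · intro f hf
          rw [Set.Finite.mem_toFinset] at hf
          exact hsub hf
        · exact mul_nonneg (Real.exp_nonneg _) (Finset.prod_nonneg fun c _ => hw _)
    _ = Real.exp T₀ * (∑ a ∈ A, w a) ^ (Fintype.card κ) := by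
        rw [← Finset.mul_sum]
        congr 1
        rw [Finset.sum_prod_piFinset A (fun _ a => w a)]
        simp

end Pool.Agent.H610.HD
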