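import Pool.Agent.H610.HD.Count

/-!
# Encoding of the configurations
-/

set_option autoImplicit false

open MeasureTheory Set Filter

namespace Pool.Agent.H610.HD

/-- the unit square of a point -/
noncomputable def cl (z : ℂ) : Pt := (⌊z.re⌋, ⌊z.im⌋)

/-- the position in the unit square -/
noncomputable def rel (δ : ℝ) (c : Pt) (z : ℂ) : Pt :=
  (⌊z.re / δ⌋ - ⌊(c.1 : ℝ) / δ⌋, ⌊z.im / δ⌋ - ⌊(c.2 : ℝ) / δ⌋)

open Classical in
/-- a reference position for the third vertex -/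
noncomputable def base (δ : ℝ) (m n : ℕ) (s : Bool) (y₁ y₂ : Pt) : Pt :=
  if h : ∃ t : ℂ × ℂ × ℂ, rd δ t.1 = y₁ ∧ rd δ t.2.1 = y₂ ∧ Tri δ m n t.1 t.2.1 t.2.2 ∧
    (s = true ↔ 0 ≤ cr t.1 t.2.1 t.2.2) then rd δ h.choose.2.2 else 0

/-- `f` is a code of the configuration `x` -/
structure IsCode {N : ℕ} (δ : ℝ) (x : Fin N → ℂ) (f : Pt → Code) : Prop where
  none : ∀ c, f c = none → ∀ i, cl (x i) ≠ c
  bad : ∀ c u, f c = some (Sum.inl u) → ∃ i, cl (x i) = c ∧ rel δ c (x i) = u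
  good : ∀ c oj ok m n s r, f c = some (Sum.inr ((oj, ok), ((m, n), (s, r)))) →
    ∃ i j k, cl (x i) = c ∧ cl (x j) = c + oj ∧ cl (x k) = c + ok ∧ (x j).im < (x i).im ∧
      (x k).im < (x i).im ∧ rd δ (x i) = base δ m n s (rd δ (x j)) (rd δ (x k)) + r

theorem rd_of_rel {δ : ℝ} {c : Pt} {z z' : ℂ} (h : rel δ c z = rel δ c z') : rd δ z = rd δ z' := by
  unfold rel at h
  unfold rd
  rw [Prod.mk.injEq] at h ⊢
  exact ⟨by linarith [h.1], by linarith [h.2]⟩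

theorem code_unique {N : ℕ} {δ : ℝ} {x x' : Fin N → ℂ} {f : Pt → Code}
    (hi : Function.Injective fun i => cl (x i)) (hi' : Function.Injective fun i => cl (x' i))
    (h : IsCode δ x f) (h' : IsCode δ x' f) (i : Fin N) :
    ∃ i', cl (x' i') = cl (x i) ∧ rd δ (x' i') = rd δ (x i) := by
  have wf : WellFounded fun i j : Fin N => (x i).im < (x j).im := by
    have : IsTrans (Fin N) fun i j : Fin N => (x i).im < (x j).im := ⟨fun _ _ _ => lt_trans⟩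
    have : Std.Irrefl fun i j : Fin N => (x i).im < (x j).im := ⟨fun _ => lt_irrefl _⟩
    exact Finite.wellFounded_of_trans_of_irrefl _
  induction i using wf.induction with
  | _ i ih =>
    match hc : f (cl (x i)) with
    | none => exact absurd rfl (h.none _ hc i)
    | some (Sum.inl u) =>
      obtain ⟨i₁, h1, h2⟩ := h.bad _ u hc
      obtain ⟨i₂, h3, h4⟩ := h'.bad _ u hc
      obtain rfl := hi h1
      exact ⟨i₂, h3, rd_of_rel (h4.trans h2.symm)⟩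
    | some (Sum.inr ((oj, ok), ((m, n), (s, r)))) =>
      obtain ⟨i₁, j, k, h1, h2, h3, h4, h5, h6⟩ := h.good _ oj ok m n s r hc
      obtain ⟨i₂, j₂, k₂, e1, e2, e3, e4, e5, e6⟩ := h'.good _ oj ok m n s r hc
      obtain rfl := hi h1
      obtain ⟨j', a1, a2⟩ := ih j h4
      obtain ⟨k', b1, b2⟩ := ih k h5
      have hj : j₂ = j' := hi' (by simp only; rw [e2, a1, h2])
      have hk : k₂ = k' := hi' (by simp only; rw [e3, b1, h3])
      subst hj hk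
      exact ⟨i₂, e1, by rw [e6, h6, a2, b2]⟩

/-- the unit squares which meet the box -/
noncomputable def Kset (L : ℝ) : Finset Pt := Finset.Icc 0 ⌊L⌋ ×ˢ Finset.Icc 0 ⌊L⌋

theorem cl_inj {N : ℕ} {x : Fin N → ℂ} (hsep : ∀ i j, i ≠ j → 2 ≤ ‖x i - x j‖) :
    Function.Injective fun i => cl (x i) := by
  intro i j hij
  by_contra hne
  have h1 := hsep i j hne
  simp only [cl, Prod.mk.injEq] at hij
  have h2 := Int.abs_sub_lt_one_of_floor_eq_floor hij.1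
  have h3 := Int.abs_sub_lt_one_of_floor_eq_floor hij.2
  have h4 := Complex.norm_le_abs_re_add_abs_im (x i - x j)
  rw [Complex.sub_re, Complex.sub_im] at h4
  linarith

theorem floor_abs {a b : ℝ} (h : |a - b| ≤ 201 / 100) : |⌊a⌋ - ⌊b⌋| ≤ 3 := by
  rw [abs_le] at h
  have h1 := Int.floor_le a
  have h2 := Int.lt_floor_add_one a
  have h3 := Int.floor_le b
  have h4 := Int.lt_floor_add_one b
  have h5 : ((⌊a⌋ - ⌊b⌋ : ℤ) : ℝ) < 4 := by
    push_cast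
    linarith
  have h6 : (-4 : ℝ) < ((⌊a⌋ - ⌊b⌋ : ℤ) : ℝ) := by
    push_cast
    linarith
  have h7 : ⌊a⌋ - ⌊b⌋ < 4 := by exact_mod_cast h5
  have h8 : -4 < ⌊a⌋ - ⌊b⌋ := by exact_mod_cast h6
  rw [abs_le]
  omega

theorem rel_mem {δ : ℝ} (hδ : 0 < δ) (a : ℝ) :
    ⌊a / δ⌋ - ⌊((⌊a⌋ : ℤ) : ℝ) / δ⌋ ∈ Finset.Icc (0 : ℤ) (⌊1 / δ⌋ + 1) := by
  have h1 := Int.floor_le a
  have h2 := Int.lt_floor_add_one a
  have h3 : ((⌊a⌋ : ℤ) : ℝ) / δ ≤ a / δ := by gcongr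
  have h4 : a / δ < ((⌊a⌋ : ℤ) : ℝ) / δ + 1 / δ := by
    rw [← add_div]
    gcongr
  have h5 := Int.floor_le_floor h3
  have h6 : ⌊a / δ⌋ ≤ ⌊((⌊a⌋ : ℤ) : ℝ) / δ + 1 / δ⌋ := Int.floor_le_floor h4.le
  have h7 := Int.le_floor_add_floor (((⌊a⌋ : ℤ) : ℝ) / δ) (1 / δ)
  rw [Finset.mem_Icc]
  omega

end Pool.Agent.H610.HD
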