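import Pool.Agent.H610.HD.Enc

/-!
# Existence of the codes
-/

set_option autoImplicit false

open MeasureTheory Set Filter

namespace Pool.Agent.H610.HD

theorem base_spec (htri : S_tri) {δ : ℝ} (hδ : 0 < δ) (hδ' : δ ≤ 1 / 100) {m n : ℕ} {p q z : ℂ}
    {s : Bool} (h : Tri δ m n p q z) (hs : s = true ↔ 0 ≤ cr p q z) :
    rd δ z - base δ m n s (rd δ p) (rd δ q) ∈ bx 100 := by
  have hex : ∃ t : ℂ × ℂ × ℂ, rd δ t.1 = rd δ p ∧ rd δ t.2.1 = rd δ q ∧ Tri δ m n t.1 t.2.1 t.2.2 ∧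
    (s = true ↔ 0 ≤ cr t.1 t.2.1 t.2.2) := ⟨(p, q, z), rfl, rfl, h, hs⟩
  have hb : base δ m n s (rd δ p) (rd δ q) = rd δ hex.choose.2.2 := by
    unfold base
    rw [dif_pos hex]
  rw [hb]
  obtain ⟨h1, h2, h3, h4⟩ := hex.choose_spec
  obtain ⟨h5, h6⟩ := htri δ hδ hδ' m n p q z _ _ _ h1.symm h2.symm h h3 (hs.symm.trans h4)
  rw [mem_bx, Prod.fst_sub, Prod.snd_sub]
  exact ⟨h5, h6⟩

theorem inr_mem_CS {T : ℤ} {m₁ : ℕ} {o₁ o₂ : Pt} {m n : ℕ} {s : Bool} {r : Pt}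
    (h1 : o₁ ∈ bx 3) (h2 : o₂ ∈ bx 3) (h5 : m < m₁) (h6 : n < m₁) (h7 : r ∈ bx 100) :
    (some (Sum.inr ((o₁, o₂), ((m, n), (s, r)))) : Code) ∈ CS T m₁ := by
  unfold CS
  rw [Finset.some_mem_insertNone, Finset.inr_mem_disjSum]
  have e1 : (o₁, o₂) ∈ bx 3 ×ˢ bx 3 := Finset.mem_product.mpr ⟨h1, h2⟩
  have e2 : (s, r) ∈ (Finset.univ : Finset Bool) ×ˢ bx 100 :=
    Finset.mem_product.mpr ⟨Finset.mem_univ _, h7⟩
  have e3 : (m, n) ∈ Finset.range m₁ ×ˢ Finset.range m₁ :=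
    Finset.mem_product.mpr ⟨Finset.mem_range.mpr h5, Finset.mem_range.mpr h6⟩
  exact Finset.mem_product.mpr ⟨e1, Finset.mem_product.mpr ⟨e3, e2⟩⟩

/-- the code of a point -/
noncomputable def pcode {N : ℕ} (δ : ℝ) (x : Fin N → ℂ) (j k : Fin N → Fin N) (b : Fin N → Prop)
    [DecidablePred b] (i : Fin N) : Code :=
  if b i then some (Sum.inr ((cl (x (j i)) - cl (x i), cl (x (k i)) - cl (x i)),
    ((⌊(‖x i - x (j i)‖ - 2) / δ⌋₊, ⌊(‖x i - x (k i)‖ - 2) / δ⌋₊),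
      (decide (0 ≤ (x i - x (j i)).re * (x (k i) - x (j i)).im -
        (x i - x (j i)).im * (x (k i) - x (j i)).re),
        rd δ (x i) - base δ ⌊(‖x i - x (j i)‖ - 2) / δ⌋₊ ⌊(‖x i - x (k i)‖ - 2) / δ⌋₊
          (decide (0 ≤ (x i - x (j i)).re * (x (k i) - x (j i)).im -
        (x i - x (j i)).im * (x (k i) - x (j i)).re)) (rd δ (x (j i))) (rd δ (x (k i)))))))
  else some (Sum.inl (rel δ (cl (x i)) (x i)))

theorem exists_code (htri : S_tri) {δ : ℝ} (hδ : 0 < δ) (hδ' : δ ≤ 1 / 100) {N : ℕ} {L : ℝ}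
    (x : Fin N → ℂ) (hx : ∀ i, 0 ≤ (x i).re ∧ (x i).re ≤ L ∧ 0 ≤ (x i).im ∧ (x i).im ≤ L)
    (hsep : ∀ i j, i ≠ j → 2 ≤ ‖x i - x j‖) (η : Fin N → ℝ) (hη : ∀ i, 0 ≤ η i)
    (hgood : ∀ i, η i < 1 / 1000 → ∃ j k, j ≠ k ∧ (x j).im < (x i).im ∧ (x k).im < (x i).im ∧
      ‖x i - x j‖ ≤ 2 + 7 * η i ∧ ‖x i - x k‖ ≤ 2 + 7 * η i ∧ ‖x j - x k‖ ≤ 39 / 10) :
    ∃ f : Pt → Code, IsCode δ x f ∧ (∀ c, c ∉ Kset L → f c = none) ∧
      (∀ c, f c ∈ CS (⌊1 / δ⌋ + 1) (⌊1 / δ⌋₊ + 1)) ∧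
      Real.exp (-(2000 * ∑ i, η i) / δ) ≤ ∏ c ∈ Kset L, wt δ (f c) := by
  classical
  have hinj := cl_inj hsep
  -- choose the neighbours
  have hch : ∀ i, ∃ j k, η i < 1 / 1000 → j ≠ k ∧ (x j).im < (x i).im ∧ (x k).im < (x i).im ∧
      ‖x i - x j‖ ≤ 2 + 7 * η i ∧ ‖x i - x k‖ ≤ 2 + 7 * η i ∧ ‖x j - x k‖ ≤ 39 / 10 := by
    intro i
    by_cases h : η i < 1 / 1000
    · obtain ⟨j, k, h1⟩ := hgood i h
      exact ⟨j, k, fun _ => h1⟩
    · exact ⟨i, i, fun h' => absurd h' h⟩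
  choose j k hjk using hch
  set b : Fin N → Prop := fun i => η i < 1 / 1000 with hb
  set pc : Fin N → Code := pcode δ x j k b with hpc
  -- facts about good points
  have hne : ∀ i, b i → j i ≠ i ∧ k i ≠ i := by
    intro i hi
    obtain ⟨_, h2, h3, _⟩ := hjk i hi
    exact ⟨fun h => by rw [h] at h2; exact lt_irrefl _ h2,
      fun h => by rw [h] at h3; exact lt_irrefl _ h3⟩
  have hTri : ∀ i, b i → Tri δ ⌊(‖x i - x (j i)‖ - 2) / δ⌋₊ ⌊(‖x i - x (k i)‖ - 2) / δ⌋₊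
      (x (j i)) (x (k i)) (x i) := by
    intro i hi
    obtain ⟨h1, h2, h3, h4, h5, h6⟩ := hjk i hi
    obtain ⟨n1, n2⟩ := hne i hi
    have hi' : η i < 1 / 1000 := hi
    have d1 := hsep i (j i) n1.symm
    have d2 := hsep i (k i) n2.symm
    have q1 : 0 ≤ (‖x i - x (j i)‖ - 2) / δ := div_nonneg (by linarith) hδ.le
    have q2 : 0 ≤ (‖x i - x (k i)‖ - 2) / δ := div_nonneg (by linarith) hδ.le
    have f1 := Nat.floor_le q1
    have f2 := Nat.lt_floor_add_one ((‖x i - x (j i)‖ - 2) / δ)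
    have f3 := Nat.floor_le q2
    have f4 := Nat.lt_floor_add_one ((‖x i - x (k i)‖ - 2) / δ)
    rw [le_div_iff₀ hδ] at f1 f3
    rw [div_lt_iff₀ hδ] at f2 f4
    refine ⟨hsep _ _ h1, h6, ?_, ?_, ?_, ?_, ?_, ?_⟩ <;> linarith
  have hfl1 : ∀ i, b i → ⌊(‖x i - x (j i)‖ - 2) / δ⌋₊ < ⌊1 / δ⌋₊ + 1 := by
    intro i hi
    obtain ⟨h1, h2, h3, h4, h5, h6⟩ := hjk i hi
    have hi' : η i < 1 / 1000 := hi
    refine Nat.lt_succ_of_le (Nat.floor_le_floor ?_)
    gcongr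
    linarith
  have hfl2 : ∀ i, b i → ⌊(‖x i - x (k i)‖ - 2) / δ⌋₊ < ⌊1 / δ⌋₊ + 1 := by
    intro i hi
    obtain ⟨h1, h2, h3, h4, h5, h6⟩ := hjk i hi
    have hi' : η i < 1 / 1000 := hi
    refine Nat.lt_succ_of_le (Nat.floor_le_floor ?_)
    gcongr
    linarith
  -- the code
  set f : Pt → Code := fun c => if h : ∃ i, cl (x i) = c then pc h.choose else none with hf
  have hfc : ∀ i, f (cl (x i)) = pc i := by
    intro i
    have h : ∃ i', cl (x i') = cl (x i) := ⟨i, rfl⟩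
    rw [hf]
    simp only
    rw [dif_pos h]
    congr 1
    exact hinj h.choose_spec
  have hfn : ∀ c, (¬ ∃ i, cl (x i) = c) → f c = none := by
    intro c h
    rw [hf]
    simp only
    rw [dif_neg h]
  have hmemK : ∀ i, cl (x i) ∈ Kset L := by
    intro i
    obtain ⟨h1, h2, h3, h4⟩ := hx i
    simp only [Kset, cl, Finset.mem_product, Finset.mem_Icc]
    exact ⟨⟨Int.floor_nonneg.mpr h1, Int.floor_le_floor h2⟩, Int.floor_nonneg.mpr h3,
      Int.floor_le_floor h4⟩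
  have hpcmem : ∀ i, pc i ∈ CS (⌊1 / δ⌋ + 1) (⌊1 / δ⌋₊ + 1) := by
    intro i
    by_cases hi : b i
    · rw [hpc]
      unfold pcode
      rw [if_pos hi]
      obtain ⟨h1, h2, h3, h4, h5, h6⟩ := hjk i hi
      have hi' : η i < 1 / 1000 := hi
      have n1 : ‖x (j i) - x i‖ ≤ 201 / 100 := by rw [norm_sub_rev]; linarith
      have n2 : ‖x (k i) - x i‖ ≤ 201 / 100 := by rw [norm_sub_rev]; linarith
      have r1 := (Complex.abs_re_le_norm _).trans n1
      have r2 := (Complex.abs_im_le_norm _).trans n1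
      have r3 := (Complex.abs_re_le_norm _).trans n2
      have r4 := (Complex.abs_im_le_norm _).trans n2
      rw [Complex.sub_re] at r1 r3
      rw [Complex.sub_im] at r2 r4
      exact inr_mem_CS (mem_bx.mpr ⟨floor_abs r1, floor_abs r2⟩)
        (mem_bx.mpr ⟨floor_abs r3, floor_abs r4⟩) (hfl1 i hi) (hfl2 i hi) (base_spec htri hδ hδ' (hTri i hi) (by rw [decide_eq_true_iff]; rfl))
    · rw [hpc]
      unfold pcode
      rw [if_neg hi]
      unfold CS
      rw [Finset.some_mem_insertNone, Finset.inl_mem_disjSum, Finset.mem_product]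
      exact ⟨rel_mem hδ _, rel_mem hδ _⟩
  refine ⟨f, ⟨?_, ?_, ?_⟩, ?_, ?_, ?_⟩
  · intro c hc i hi
    rw [← hi, hfc, hpc] at hc
    unfold pcode at hc
    split_ifs at hc
  · intro c u hc
    have hex : ∃ i, cl (x i) = c := by
      by_contra h
      rw [hfn c h] at hc
      cases hc
    obtain ⟨i, rfl⟩ := hex
    refine ⟨i, rfl, ?_⟩
    rw [hfc, hpc] at hc
    unfold pcode at hc
    split_ifs at hc with hbi
    · simp at hc
    · simp only [Option.some.injEq, Sum.inl.injEq] at hc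
      exact hc
  · intro c oj ok m n s r hc
    have hex : ∃ i, cl (x i) = c := by
      by_contra h
      rw [hfn c h] at hc
      cases hc
    obtain ⟨i, rfl⟩ := hex
    rw [hfc, hpc] at hc
    unfold pcode at hc
    by_cases hi : b i
    swap
    · rw [if_neg hi] at hc
      simp at hc
    rw [if_pos hi] at hc
    simp only [Option.some.injEq, Sum.inr.injEq, Prod.mk.injEq] at hc
    obtain ⟨⟨h1, h2⟩, ⟨h3, h4⟩, h5, h6⟩ := hc
    obtain ⟨g1, g2, g3, g4, g5, g6⟩ := hjk i hi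
    refine ⟨i, j i, k i, rfl, ?_, ?_, g2, g3, ?_⟩
    · rw [← h1]
      abel
    · rw [← h2]
      abel
    · rw [← h6, h3, h4, h5]
      abel
  · intro c hc
    refine hfn c ?_
    rintro ⟨i, rfl⟩
    exact hc (hmemK i)
  · intro c
    by_cases h : ∃ i, cl (x i) = c
    · obtain ⟨i, rfl⟩ := h
      rw [hfc]
      exact hpcmem i
    · rw [hfn c h]
      exact Finset.none_mem_insertNone
  · have h1 : ∏ c ∈ Kset L, wt δ (f c) = ∏ i, wt δ (pc i) := by
      have h2 : ∏ c ∈ Finset.univ.image (fun i => cl (x i)), wt δ (f c) = ∏ c ∈ Kset L, wt δ (f c) := by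
        refine Finset.prod_subset ?_ ?_
        · intro c hc
          rw [Finset.mem_image] at hc
          obtain ⟨i, _, rfl⟩ := hc
          exact hmemK i
        · intro c _ hc
          have : ¬ ∃ i, cl (x i) = c := by
            rintro ⟨i, hi⟩
            exact hc (Finset.mem_image.mpr ⟨i, Finset.mem_univ _, hi⟩)
          rw [hfn c this]
          rfl
      rw [← h2, Finset.prod_image (fun i _ i' _ h => hinj h)]
      exact Finset.prod_congr rfl fun i _ => by rw [hfc]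
    rw [h1]
    have h3 : Real.exp (-(2000 * ∑ i, η i) / δ) = ∏ i, Real.exp (-(2000 * η i) / δ) := by
      rw [← Real.exp_sum]
      congr 1
      rw [← Finset.sum_div, Finset.sum_neg_distrib, ← Finset.mul_sum]
    rw [h3]
    refine Finset.prod_le_prod (fun i _ => Real.exp_nonneg _) fun i _ => ?_
    rw [hpc]
    unfold pcode
    by_cases hi : b i
    · rw [if_pos hi]
      simp only [wt]
      rw [← Real.exp_add]
      refine Real.exp_le_exp.mpr ?_
      obtain ⟨g1, g2, g3, g4, g5, g6⟩ := hjk i hi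
      obtain ⟨n1, n2⟩ := hne i hi
      have d1 := hsep i (j i) n1.symm
      have d2 := hsep i (k i) n2.symm
      have q1 : 0 ≤ (‖x i - x (j i)‖ - 2) / δ := div_nonneg (by linarith) hδ.le
      have q2 : 0 ≤ (‖x i - x (k i)‖ - 2) / δ := div_nonneg (by linarith) hδ.le
      have f1 := Nat.floor_le q1
      have f3 := Nat.floor_le q2
      have t1 : (‖x i - x (j i)‖ - 2) / δ ≤ 7 * η i / δ := by
        gcongr
        linarith
      have t2 : (‖x i - x (k i)‖ - 2) / δ ≤ 7 * η i / δ := by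
        gcongr
        linarith
      have t3 : 7 * η i / δ + 7 * η i / δ ≤ 2000 * η i / δ := by
        rw [← add_div]
        gcongr
        linarith [hη i]
      rw [neg_div]
      linarith
    · rw [if_neg hi]
      simp only [wt]
      have hi' : 1 / 1000 ≤ η i := not_lt.mp hi
      have h4 : Real.exp (-(2000 * η i) / δ) ≤ Real.exp (-(2 * (1 / δ))) := by
        refine Real.exp_le_exp.mpr ?_
        have h5 : 2 * (1 / δ) ≤ 2000 * η i / δ := by
          rw [mul_one_div]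
          gcongr
          linarith
        rw [neg_div]
        linarith
      refine h4.trans ?_
      have h6 : Real.log (1 / δ) ≤ 1 / δ := by
        have := Real.log_le_sub_one_of_pos (show 0 < 1 / δ by positivity)
        linarith
      have h7 : δ ^ 2 = Real.exp (-(2 * Real.log (1 / δ))) := by
        rw [one_div, Real.log_inv, mul_neg, neg_neg, mul_comm, Real.exp_mul, Real.exp_log hδ]
        norm_num
      rw [h7]
      refine Real.exp_le_exp.mpr ?_
      linarith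

end Pool.Agent.H610.HD
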