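import Pool.Agent.H610.HD.Stm

/-!
# Thue's theorem with stability, from the area of caps and the packing of arcs
-/

set_option autoImplicit false

open MeasureTheory Set Filter

namespace Pool.Agent.H610.HD

theorem sqrt3_sq : √3 * √3 = (3 : ℝ) := Real.mul_self_sqrt (by norm_num)

theorem sqrt3_pos : (0 : ℝ) < √3 := Real.sqrt_pos.mpr (by norm_num)

theorem sqrt3_lt : √3 < (175 / 100 : ℝ) := by
  rw [Real.sqrt_lt' (by norm_num)]
  norm_num

theorem R_pos : 0 < R := by unfold R; positivity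

theorem R_sq : R ^ 2 = 4 / 3 := by
  unfold R
  rw [div_pow, Real.sq_sqrt (by norm_num)]
  norm_num

theorem R_mul : R * √3 = 2 := by
  unfold R
  rw [div_mul_cancel₀ _ sqrt3_pos.ne']

theorem two_lt : 2 < 2 * R := by
  have h := R_sq
  have h0 := R_pos
  nlinarith

theorem g_six : g (Real.pi / 6) = Real.pi / 6 - √3 / 4 := by
  unfold g
  rw [Real.sin_pi_div_six, Real.cos_pi_div_six]
  ring

/-- the open Voronoi cell of `x i`, truncated at the distance `R` -/
def cell {N : ℕ} (x : Fin N → ℂ) (i : Fin N) : Set ℂ :=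
  {z | ‖z - x i‖ < R ∧ ∀ j, j ≠ i → ‖z - x i‖ < ‖z - x j‖}

theorem cell_disjoint {N : ℕ} (x : Fin N → ℂ) {i j : Fin N} (h : i ≠ j) :
    Disjoint (cell x i) (cell x j) := by
  rw [Set.disjoint_left]
  intro z hz hz'
  have h1 := hz.2 j h.symm
  have h2 := hz'.2 i h
  exact lt_asymm h1 h2

theorem cell_measurable {N : ℕ} (x : Fin N → ℂ) (i : Fin N) : MeasurableSet (cell x i) := by
  have : cell x i = {z | ‖z - x i‖ < R} ∩ ⋂ j : Fin N, {z | j ≠ i → ‖z - x i‖ < ‖z - x j‖} := by
    ext z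
    simp [cell]
  rw [this]
  refine MeasurableSet.inter ?_ (MeasurableSet.iInter fun j => ?_)
  · exact (isOpen_lt (by fun_prop) continuous_const).measurableSet
  · by_cases hj : j = i
    · simp [hj]
    · simp only [ne_eq, hj, not_false_eq_true, forall_const]
      exact (isOpen_lt (by fun_prop) (by fun_prop)).measurableSet

/-- the enlarged square -/
def big (L : ℝ) : Set ℂ := Set.Icc (-R) (L + R) ×ℂ Set.Icc (-R) (L + R)

theorem volume_big {L : ℝ} (hL : 0 ≤ L) : volume (big L) = ENNReal.ofReal ((L + 2 * R) ^ 2) := by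
  have h0 := R_pos
  have h1 := Complex.volume_preserving_equiv_real_prod.symm.measure_preimage_equiv (big L)
  rw [← h1]
  have h2 : (Complex.measurableEquivRealProd.symm : ℝ × ℝ → ℂ) ⁻¹' (big L) =
      Set.Icc (-R) (L + R) ×ˢ Set.Icc (-R) (L + R) := by
    ext ⟨a, b⟩
    simp only [big, Set.mem_preimage, Complex.mem_reProdIm, Set.mem_prod]
    rfl
  rw [h2, Measure.volume_eq_prod, Measure.prod_prod, Real.volume_Icc,
    ← ENNReal.ofReal_mul (by linarith)]
  congr 1
  ring

theorem cell_sub_big {N : ℕ} (x : Fin N → ℂ) {L : ℝ}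
    (hx : ∀ i, 0 ≤ (x i).re ∧ (x i).re ≤ L ∧ 0 ≤ (x i).im ∧ (x i).im ≤ L) (i : Fin N) :
    cell x i ⊆ big L := by
  intro z hz
  have h1 := (Complex.abs_re_le_norm (z - x i)).trans hz.1.le
  have h2 := (Complex.abs_im_le_norm (z - x i)).trans hz.1.le
  rw [Complex.sub_re, abs_le] at h1
  rw [Complex.sub_im, abs_le] at h2
  obtain ⟨h3, h4, h5, h6⟩ := hx i
  simp only [big, Complex.mem_reProdIm, Set.mem_Icc]
  refine ⟨⟨?_, ?_⟩, ?_, ?_⟩ <;> linarith

/-- the part of the disc about `p` which is nearer to `q` -/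
def capset (p q : ℂ) : Set ℂ := {z | ‖z - p‖ < R ∧ ‖z - q‖ ≤ ‖z - p‖}

/-- the neighbours -/
noncomputable def nb {N : ℕ} (x : Fin N → ℂ) (i : Fin N) : Finset (Fin N) :=
  Finset.univ.filter fun j => j ≠ i ∧ ‖x i - x j‖ < 2 * R

theorem mem_nb {N : ℕ} {x : Fin N → ℂ} {i j : Fin N} :
    j ∈ nb x i ↔ j ≠ i ∧ ‖x i - x j‖ < 2 * R := by simp [nb]

theorem ball_sub_cell {N : ℕ} (x : Fin N → ℂ) (i : Fin N) :
    Metric.ball (x i) R ⊆ cell x i ∪ ⋃ j ∈ nb x i, capset (x i) (x j) := by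
  intro z hz
  rw [mem_ball_iff_norm] at hz
  by_cases h : ∀ j, j ≠ i → ‖z - x i‖ < ‖z - x j‖
  · exact Or.inl ⟨hz, h⟩
  · push Not at h
    obtain ⟨j, hj, hj2⟩ := h
    right
    simp only [Set.mem_iUnion]
    refine ⟨j, mem_nb.mpr ⟨hj, ?_⟩, hz, hj2⟩
    calc ‖x i - x j‖ = ‖(z - x j) - (z - x i)‖ := by congr 1; ring
      _ ≤ ‖z - x j‖ + ‖z - x i‖ := norm_sub_le _ _
      _ < 2 * R := by linarith

theorem cell_volume (hcap : S_cap) {N : ℕ} (x : Fin N → ℂ)
    (hsep : ∀ i j, i ≠ j → 2 ≤ ‖x i - x j‖) (i : Fin N) :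
    Real.pi * R ^ 2 - R ^ 2 * ∑ j ∈ nb x i, g (al ‖x i - x j‖) ≤ (volume (cell x i)).toReal := by
  have hR := R_pos
  have hb : volume (Metric.ball (x i) R) = ENNReal.ofReal (Real.pi * R ^ 2) := by
    rw [Complex.volume_ball, ← ENNReal.ofReal_pow hR.le, mul_comm Real.pi,
      ENNReal.ofReal_mul (by positivity)]
    congr 1
    rw [ENNReal.ofReal]
    congr 1
    exact (Real.toNNReal_coe (r := NNReal.pi)).symm
  have hfin : volume (cell x i) ≠ ⊤ := by
    refine ne_top_of_le_ne_top ?_ (measure_mono (fun z hz => ?_ : cell x i ⊆ Metric.ball (x i) R))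
    · rw [hb]
      exact ENNReal.ofReal_ne_top
    · rw [mem_ball_iff_norm]
      exact hz.1
  have hg : ∀ j ∈ nb x i, 0 ≤ R ^ 2 * g (al ‖x i - x j‖) := by
    intro j hj
    have h1 : 0 ≤ al ‖x i - x j‖ := Real.arccos_nonneg _
    have h2 : Real.sin (al ‖x i - x j‖) ≤ al ‖x i - x j‖ := Real.sin_le h1
    have h3 : Real.cos (al ‖x i - x j‖) ≤ 1 := Real.cos_le_one _
    have h4 : 0 ≤ Real.sin (al ‖x i - x j‖) :=
      Real.sin_nonneg_of_nonneg_of_le_pi h1 (Real.arccos_le_pi _)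
    have : 0 ≤ g (al ‖x i - x j‖) := by
      unfold g
      nlinarith
    positivity
  have h1 : volume (Metric.ball (x i) R) ≤ volume (cell x i) +
      ∑ j ∈ nb x i, ENNReal.ofReal (R ^ 2 * g (al ‖x i - x j‖)) := by
    refine (measure_mono (ball_sub_cell x i)).trans ((measure_union_le _ _).trans ?_)
    gcongr
    refine (measure_biUnion_finset_le _ _).trans (Finset.sum_le_sum fun j hj => ?_)
    have hj' := mem_nb.mp hj
    have h2 := hsep i j hj'.1.symm
    exact hcap (x i) (x j) R hR (by linarith) hj'.2.le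
  rw [hb, ← ENNReal.ofReal_sum_of_nonneg hg, ← ENNReal.ofReal_toReal hfin,
    ← ENNReal.ofReal_add ENNReal.toReal_nonneg (Finset.sum_nonneg hg)] at h1
  rw [ENNReal.ofReal_le_ofReal_iff (add_nonneg ENNReal.toReal_nonneg (Finset.sum_nonneg hg)),
    ← Finset.mul_sum] at h1
  linarith

theorem sum_cell_le {N : ℕ} (x : Fin N → ℂ) {L : ℝ} (hL : 0 ≤ L)
    (hx : ∀ i, 0 ≤ (x i).re ∧ (x i).re ≤ L ∧ 0 ≤ (x i).im ∧ (x i).im ≤ L) :
    ∑ i, (volume (cell x i)).toReal ≤ (L + 2 * R) ^ 2 := by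
  have hfin : ∀ i ∈ Finset.univ, volume (cell x i) ≠ ⊤ := by
    intro i _
    refine ne_top_of_le_ne_top ?_ (measure_mono (cell_sub_big x hx i))
    rw [volume_big hL]
    exact ENNReal.ofReal_ne_top
  rw [← ENNReal.toReal_sum hfin]
  refine ENNReal.toReal_le_of_le_ofReal (by positivity) ?_
  rw [← volume_big hL, ← measure_biUnion_finset (fun i _ j _ h => cell_disjoint x h)
    (fun i _ => cell_measurable x i)]
  exact measure_mono (Set.iUnion₂_subset fun i _ => cell_sub_big x hx i)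

theorem al_le {d : ℝ} (h : 2 ≤ d) (h' : d < 2 * R) : 0 ≤ al d ∧ al d ≤ Real.pi / 6 := by
  refine ⟨Real.arccos_nonneg _, ?_⟩
  have h1 : √3 / 2 ≤ d / (2 * R) := by
    rw [div_le_div_iff₀ (by norm_num) (by have := R_pos; linarith)]
    have := R_mul
    nlinarith
  unfold al
  rw [← Real.arccos_cos (x := Real.pi / 6) (by positivity) (by linarith [Real.pi_pos]),
    Real.cos_pi_div_six]
  exact Real.arccos_le_arccos h1

theorem dist_of_al {d e : ℝ} (h : 2 ≤ d) (h' : d < 2 * R)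
    (he : Real.pi / 6 - al d ≤ e) : d ≤ 2 + R * e := by
  have hR := R_pos
  obtain ⟨h1, h2⟩ := al_le h h'
  have hc : Real.cos (al d) = d / (2 * R) := by
    unfold al
    refine Real.cos_arccos ?_ ?_
    · have : 0 < d / (2 * R) := by positivity
      linarith
    · rw [div_le_one (by positivity)]
      exact h'.le
  set t := Real.pi / 6 - al d with ht
  have ht0 : 0 ≤ t := by linarith
  have e1 : al d = Real.pi / 6 - t := by rw [ht]; ring
  have e2 : Real.cos (al d) ≤ √3 / 2 + t / 2 := by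
    rw [e1, Real.cos_sub, Real.cos_pi_div_six, Real.sin_pi_div_six]
    have h3 := Real.cos_le_one t
    have h4 := Real.sin_le ht0
    have h5 := sqrt3_pos
    nlinarith
  rw [hc, div_le_iff₀ (by positivity)] at e2
  have h6 := R_mul
  nlinarith

theorem geo (hcap : S_cap) (harc : S_arc) (hang : S_ang) : S_geo := by
  intro N L x hL hx hsep
  obtain ⟨ha1, ha2, ha3⟩ := hang
  have hR := R_pos
  have hRsq := R_sq
  have hRm := R_mul
  have hs3 := sqrt3_sq
  have hs0 := sqrt3_pos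
  have hs1 := sqrt3_lt
  have hcond1 : ∀ i, ∀ j ∈ nb x i, 0 ≤ al ‖x i - x j‖ ∧ al ‖x i - x j‖ ≤ Real.pi / 6 := by
    intro i j hj
    have hj' := mem_nb.mp hj
    exact al_le (hsep i j hj'.1.symm) hj'.2
  have hcond2 : ∀ i, ∀ j ∈ nb x i, ∀ k ∈ nb x i, j ≠ k →
      al ‖x i - x j‖ + al ‖x i - x k‖ ≤ dist (Complex.arg (x j - x i) : AddCircle (2 * Real.pi))
        (Complex.arg (x k - x i) : AddCircle (2 * Real.pi)) := by
    intro i j hj k hk hjk
    have hj' := mem_nb.mp hj
    have hk' := mem_nb.mp hk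
    rw [norm_sub_rev (x i) (x j)] at hj' ⊢
    rw [norm_sub_rev (x i) (x k)] at hk' ⊢
    refine ha1 _ _ (hsep j i hj'.1) hj'.2 (hsep k i hk'.1) hk'.2 ?_
    have : x j - x i - (x k - x i) = x j - x k := by ring
    rw [this]
    exact hsep j k hjk
  set e : Fin N → ℝ := fun i => 6 * g (Real.pi / 6) - ∑ j ∈ nb x i, g (al ‖x i - x j‖) with he
  refine ⟨fun i => R ^ 2 * e i, fun i => ?_, ?_, fun i hi => ?_⟩
  · have h1 := (harc (Fin N) (nb x i) (fun j => al ‖x i - x j‖)
      (fun j => (Complex.arg (x j - x i) : AddCircle (2 * Real.pi))) (hcond1 i) (hcond2 i)).1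
    have : 0 ≤ e i := by
      rw [he]
      simpa using h1
    positivity
  · have h1 := sum_cell_le x hL hx
    have h2 : ∀ i, 2 * √3 + R ^ 2 * e i ≤ (volume (cell x i)).toReal := by
      intro i
      refine le_trans (le_of_eq ?_) (cell_volume hcap x hsep i)
      rw [he]
      simp only
      rw [g_six, hRsq]
      ring
    have h3 := Finset.sum_le_sum fun i (_ : i ∈ Finset.univ) => h2 i
    rw [Finset.sum_add_distrib, Finset.sum_const, Finset.card_univ, Fintype.card_fin,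
      nsmul_eq_mul] at h3
    linarith
  · simp only at hi
    have h1 := (harc (Fin N) (nb x i) (fun j => al ‖x i - x j‖)
      (fun j => (Complex.arg (x j - x i) : AddCircle (2 * Real.pi))) (hcond1 i) (hcond2 i)).2
    have he1 : e i < 1 / 100 := by
      rw [hRsq] at hi
      linarith
    obtain ⟨j, hj, k, hk, hjk, hj1, hk1, hj2, hk2⟩ := h1 he1
      ((-(Real.pi / 2) : ℝ) : AddCircle (2 * Real.pi))
    have hj' := mem_nb.mp hj
    have hk' := mem_nb.mp hk
    have hj0 : x j - x i ≠ 0 := by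
      intro h
      have := hsep j i hj'.1
      rw [h, norm_zero] at this
      linarith
    have hk0 : x k - x i ≠ 0 := by
      intro h
      have := hsep k i hk'.1
      rw [h, norm_zero] at this
      linarith
    have dj := dist_of_al (hsep i j hj'.1.symm) hj'.2 hj2
    have dk := dist_of_al (hsep i k hk'.1.symm) hk'.2 hk2
    have hei : 0 ≤ e i := by
      have h5 := (harc (Fin N) (nb x i) (fun j => al ‖x i - x j‖)
        (fun j => (Complex.arg (x j - x i) : AddCircle (2 * Real.pi))) (hcond1 i) (hcond2 i)).1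
      rw [he]
      simpa using h5
    have hkey : R * (8 * e i) ≤ 7 * (R ^ 2 * e i) := by
      have : R * 8 ≤ 7 * R ^ 2 := by nlinarith
      nlinarith
    have dj' : ‖x i - x j‖ ≤ 2 + 7 * (R ^ 2 * e i) := dj.trans (by linarith)
    have dk' : ‖x i - x k‖ ≤ 2 + 7 * (R ^ 2 * e i) := dk.trans (by linarith)
    refine ⟨j, k, hjk, ?_, ?_, dj', dk', ?_⟩
    · have := ha2 _ hj0 hj1
      rw [Complex.sub_im] at this
      linarith
    · have := ha2 _ hk0 hk1
      rw [Complex.sub_im] at this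
      linarith
    · have := ha3 (x j - x i) (x k - x i) hj0 hk0
        (by rw [norm_sub_rev]; linarith) (by rw [norm_sub_rev]; linarith) hj1 hk1
      have e5 : x j - x i - (x k - x i) = x j - x k := by ring
      rwa [e5] at this

end Pool.Agent.H610.HD
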