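import Pool.Agent.H610.HD.Main
import Pool.Agent.H385.HD610.Pack
import Pool.Graph.R_pool_sql_team_seeded_c8625f6e.K4H96.HS.Free

/-!
# Hard disks near close packing: the thermodynamic limit
-/

set_option autoImplicit false

open MeasureTheory Set Filter Topology

namespace Pool.Agent.H610.HD

open Pool.Agent.K4H96.HS

/-- the close-packing density of disks of radius `a` -/
noncomputable def rho0 (a : ℝ) : ℝ := 1 / (2 * √3 * a ^ 2)

theorem rho0_pos {a : ℝ} (ha : 0 < a) : 0 < rho0 a := by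
  unfold rho0
  have := sqrt3_pos
  positivity

theorem div_rho0 {a : ℝ} (ha : 0 < a) (ρ : ℝ) : ρ / rho0 a = 2 * √3 * a ^ 2 * ρ := by
  unfold rho0
  have := sqrt3_pos
  field_simp

theorem conf_eq_X (N : ℕ) (L : ℝ) : Conf N 2 2 (Box 2 L) = X N L := by
  unfold Conf Box X
  ext x
  simp only [mem_setOf_eq, mem_Icc]
  have : (2 : ℝ) ^ 2 = 4 := by norm_num
  rw [this]

/-- the volume of the configuration space, disks of radius `a` -/
theorem vol_conf {a : ℝ} (ha : 0 < a) (N : ℕ) (L δ : ℝ) (hL : 0 ≤ L) (hδ : 0 < δ)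
    (hδ' : δ ≤ 1 / 100)
    (hM : (L + 2 * (R * a)) ^ 2 - 2 * √3 * a ^ 2 * N ≤ δ * (L + 2 * (R * a)) ^ 2) :
    (volume (Conf N 2 (2 * a) (Box 2 L))).toReal ≤ N.factorial * (Real.exp 4042 * a * δ) ^ (2 * N) := by
  have h1 := vol_conf_smul (N := N) (d := 2) a ha 2 (L / a)
  rw [mul_div_cancel₀ _ ha.ne', mul_comm a 2, conf_eq_X] at h1
  rw [h1]
  have e : L + 2 * (R * a) = a * (L / a + 2 * R) := by field_simp
  have h2 : (L / a + 2 * R) ^ 2 - 2 * √3 * N ≤ δ * (L / a + 2 * R) ^ 2 := by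
    rw [e, mul_pow] at hM
    have ha2 : 0 < a ^ 2 := by positivity
    have h3 : a ^ 2 * ((L / a + 2 * R) ^ 2 - 2 * √3 * N) ≤ a ^ 2 * (δ * (L / a + 2 * R) ^ 2) := by
      linarith
    exact le_of_mul_le_mul_left h3 ha2
  have h4 := volume_X N (L / a) δ (by positivity) hδ hδ' h2
  calc a ^ (N * 2) * (volume (X N (L / a))).toReal
      ≤ a ^ (N * 2) * (N.factorial * (Real.exp 4042 * δ) ^ (2 * N)) := by gcongr
    _ = N.factorial * (Real.exp 4042 * a * δ) ^ (2 * N) := by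
        rw [mul_comm N 2]
        ring

/-- Thue's bound -/
theorem thue {a : ℝ} (ha : 0 < a) (N : ℕ) (L : ℝ) (hL : 0 ≤ L)
    (h : (Conf N 2 (2 * a) (Box 2 L)).Nonempty) :
    2 * √3 * a ^ 2 * N ≤ (L + 2 * (R * a)) ^ 2 := by
  have h1 := conf_smul (N := N) (d := 2) a ha 2 (L / a)
  rw [mul_div_cancel₀ _ ha.ne', mul_comm a 2, conf_eq_X] at h1
  rw [h1, Set.smul_set_nonempty] at h
  obtain ⟨x, hx⟩ := h
  obtain ⟨η, h2, h3, _⟩ := s_geo N (L / a) (fun i => toC (x i)) (by positivity) (box_of_X hx)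
    (sep_of_X hx)
  have h4 : 0 ≤ ∑ i, η i := Finset.sum_nonneg fun i _ => h2 i
  have e : L + 2 * (R * a) = a * (L / a + 2 * R) := by field_simp
  rw [e, mul_pow]
  have h5 : 2 * √3 * N ≤ (L / a + 2 * R) ^ 2 := by linarith
  calc 2 * √3 * a ^ 2 * N = a ^ 2 * (2 * √3 * N) := by ring
    _ ≤ a ^ 2 * (L / a + 2 * R) ^ 2 := by gcongr

theorem packing_le {a : ℝ} (ha : 0 < a) {ρ : ℝ} (hρ : 0 < ρ)
    (h : ∀ᶠ L : ℝ in atTop, (Conf ⌈ρ * L ^ 2⌉₊ 2 (2 * a) (Box 2 L)).Nonempty) : ρ ≤ rho0 a := by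
  have h0 := sqrt3_pos
  have hR := R_pos
  have hlim : Tendsto (fun L : ℝ => (1 + 2 * (R * a) / L) ^ 2) atTop (𝓝 ((1 + 0) ^ 2)) :=
    (tendsto_const_nhds.add (tendsto_const_nhds.div_atTop tendsto_id)).pow 2
  rw [add_zero, one_pow] at hlim
  have hev : ∀ᶠ L : ℝ in atTop, 2 * √3 * a ^ 2 * ρ ≤ (1 + 2 * (R * a) / L) ^ 2 := by
    filter_upwards [h, eventually_gt_atTop 0] with L hL hL0
    have h1 := thue ha _ L hL0.le hL
    have h2 : ρ * L ^ 2 ≤ (⌈ρ * L ^ 2⌉₊ : ℝ) := Nat.le_ceil _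
    have h3 : 2 * √3 * a ^ 2 * (ρ * L ^ 2) ≤ (L + 2 * (R * a)) ^ 2 :=
      le_trans (by gcongr) h1
    have e : (L + 2 * (R * a)) ^ 2 = (1 + 2 * (R * a) / L) ^ 2 * L ^ 2 := by field_simp
    rw [e, ← mul_assoc] at h3
    exact le_of_mul_le_mul_right h3 (by positivity)
  have h4 : 2 * √3 * a ^ 2 * ρ ≤ 1 := ge_of_tendsto hlim hev
  rw [← div_rho0 ha, div_le_one (rho0_pos ha)] at h4
  exact h4

/-- **Thue's theorem** for the close-packing density -/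
theorem closePacking_eq {a : ℝ} (ha : 0 < a) : closePacking 2 a = rho0 a := by
  have hb : BddAbove {ρ | 0 < ρ ∧ ∀ᶠ L : ℝ in atTop,
      (Conf ⌈ρ * L ^ 2⌉₊ 2 (2 * a) (Box 2 L)).Nonempty} :=
    ⟨rho0 a, fun ρ hρ => packing_le ha hρ.1 hρ.2⟩
  have hmem : ∀ ρ, 0 < ρ → ρ < rho0 a → ρ ∈ {ρ | 0 < ρ ∧ ∀ᶠ L : ℝ in atTop,
      (Conf ⌈ρ * L ^ 2⌉₊ 2 (2 * a) (Box 2 L)).Nonempty} := fun ρ h1 h2 =>
    ⟨h1, Pool.Agent.H385.HD610.pack a ρ ha h1 h2⟩
  have h0 := rho0_pos ha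
  refine le_antisymm ?_ ?_
  · refine csSup_le ⟨rho0 a / 2, hmem _ (by linarith) (by linarith)⟩ fun ρ hρ => ?_
    exact packing_le ha hρ.1 hρ.2
  · refine le_of_forall_lt fun c hc => ?_
    rcases lt_or_ge 0 c with hc0 | hc0
    · have h1 := hmem ((c + rho0 a) / 2) (by linarith) (by linarith)
      exact lt_of_lt_of_le (by linarith) (le_csSup hb h1)
    · have h1 := hmem (rho0 a / 2) (by linarith) (by linarith)
      exact lt_of_lt_of_le (by linarith) (le_csSup hb h1)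

/-- the constant -/
noncomputable def K : ℝ := Real.exp 4042

theorem K_ge : 100 ≤ K := by
  unfold K
  have := Real.add_one_le_exp (4042 : ℝ)
  linarith

/-- the relative free side is at most `2K (1 - ρ/ρ₀)` -/
theorem relSide_le {a : ℝ} (ha : 0 < a) {ρ : ℝ} (hρ : 0 < ρ) (hρ' : ρ < rho0 a) :
    ∀ᶠ q in thermo 2 ρ, relSide 2 a q ≤ 2 * K * (1 - ρ / rho0 a) := by
  have hK := K_ge
  have h0 := sqrt3_pos
  have hR := R_pos
  have hr0 := rho0_pos ha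
  set e := 1 - ρ / rho0 a with he
  have he0 : 0 < e := by
    rw [he, sub_pos, div_lt_one hr0]
    exact hρ'
  have he1 : 2 * √3 * a ^ 2 * ρ = 1 - e := by rw [← div_rho0 ha, he]; ring
  rcases lt_or_ge (1 / 100) (2 * e) with hcase | hcase
  · filter_upwards [relSide_mem (by norm_num) a ρ] with q hq
    refine hq.2.2.2.trans ?_
    nlinarith
  · have hdens := thermo_dens 2 ρ
    have hsnd := thermo_snd 2 ρ
    have h1 : Tendsto (fun q : ℕ × ℝ => 2 * √3 * a ^ 2 * ((q.1 : ℝ) / q.2 ^ 2) -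
        (1 - 2 * e) * (1 + 2 * (R * a) / q.2) ^ 2) (thermo 2 ρ)
        (𝓝 (2 * √3 * a ^ 2 * ρ - (1 - 2 * e) * (1 + 0) ^ 2)) :=
      (hdens.const_mul _).sub (((tendsto_const_nhds.add
        (tendsto_const_nhds.div_atTop hsnd)).pow 2).const_mul _)
    have h2 : (0 : ℝ) < 2 * √3 * a ^ 2 * ρ - (1 - 2 * e) * (1 + 0) ^ 2 := by
      rw [he1]
      linarith
    have h3 : Tendsto (fun q : ℕ × ℝ => a ^ 2 * ((q.1 : ℝ) / q.2 ^ 2)) (thermo 2 ρ)
        (𝓝 (a ^ 2 * ρ)) := hdens.const_mul _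
    have h4 : a ^ 2 * ρ < 1 := by
      have : 1 < 2 * √3 := by
        have := sqrt3_sq
        nlinarith
      have h5 : 0 < a ^ 2 * ρ := by positivity
      nlinarith
    filter_upwards [h1.eventually_const_lt h2, h3.eventually_lt_const h4,
      relSide_mem (by norm_num) a ρ, hsnd.eventually_gt_atTop 0] with q hq1 hq2 hq3 hL
    obtain ⟨hN, _, _, _⟩ := hq3
    have hN' : (0 : ℝ) < q.1 := by exact_mod_cast hN
    have hM : (q.2 + 2 * (R * a)) ^ 2 - 2 * √3 * a ^ 2 * q.1 ≤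
        (2 * e) * (q.2 + 2 * (R * a)) ^ 2 := by
      have e2 : (q.2 + 2 * (R * a)) ^ 2 = (1 + 2 * (R * a) / q.2) ^ 2 * q.2 ^ 2 := by
        field_simp
      have e3 : 2 * √3 * a ^ 2 * (q.1 : ℝ) = 2 * √3 * a ^ 2 * ((q.1 : ℝ) / q.2 ^ 2) * q.2 ^ 2 := by
        field_simp
      rw [e2, e3]
      have h6 : 0 < (2 * √3 * a ^ 2 * ((q.1 : ℝ) / q.2 ^ 2) -
        (1 - 2 * e) * (1 + 2 * (R * a) / q.2) ^ 2) * q.2 ^ 2 := mul_pos hq1 (by positivity)
      linarith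
    have hv := vol_conf ha q.1 q.2 (2 * e) hL.le (by linarith) hcase hM
    have haN : √(q.1 : ℝ) * a ≤ q.2 := by
      have h7 : a ^ 2 * q.1 ≤ q.2 ^ 2 := by
        have e3 : a ^ 2 * (q.1 : ℝ) = a ^ 2 * ((q.1 : ℝ) / q.2 ^ 2) * q.2 ^ 2 := by
          field_simp
        rw [e3]
        nlinarith [hq2, sq_nonneg q.2]
      refine abs_le_of_sq_le_sq' ?_ hL.le |>.2
      rw [mul_pow, Real.sq_sqrt hN'.le]
      linarith
    have hfac : (q.1.factorial : ℝ) ≤ √(q.1 : ℝ) ^ (2 * q.1) := by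
      rw [pow_mul, Real.sq_sqrt hN'.le]
      exact_mod_cast Nat.factorial_le_pow q.1
    have hle : (volume (Conf q.1 2 (2 * a) (Box 2 q.2))).toReal ≤
        (q.2 * (K * (2 * e))) ^ (q.1 * 2) := by
      refine hv.trans ?_
      rw [mul_comm q.1 2]
      calc (q.1.factorial : ℝ) * (Real.exp 4042 * a * (2 * e)) ^ (2 * q.1)
          ≤ √(q.1 : ℝ) ^ (2 * q.1) * (Real.exp 4042 * a * (2 * e)) ^ (2 * q.1) := by
            gcongr
        _ = ((√(q.1 : ℝ) * a) * (K * (2 * e))) ^ (2 * q.1) := by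
            rw [← mul_pow]
            congr 1
            unfold K
            ring
        _ ≤ (q.2 * (K * (2 * e))) ^ (2 * q.1) := by gcongr
    rw [relSide_eq, div_le_iff₀ hL]
    unfold rt
    have hm : 0 < q.1 * 2 := by omega
    have h8 := Real.rpow_le_rpow ENNReal.toReal_nonneg hle
      (show (0 : ℝ) ≤ 1 / ((q.1 * 2 : ℕ) : ℝ) by positivity)
    refine h8.trans (le_of_eq ?_)
    rw [one_div, Real.pow_rpow_inv_natCast (by positivity) hm.ne']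
    ring

theorem freeSide_le {a : ℝ} (ha : 0 < a) {ρ : ℝ} (hρ : 0 < ρ) (hρ' : ρ < rho0 a) :
    freeSide 2 a ρ ≤ 2 * K * (1 - ρ / rho0 a) := by
  have := thermo_neBot (d := 2) (by norm_num) ρ hρ
  refine le_of_forall_pos_le_add fun ε hε => ?_
  obtain ⟨q, h1, h2⟩ := ((freeSide_ev (d := 2) (by norm_num) a ρ ε hε).and
    (relSide_le ha hρ hρ')).exists
  linarith

/-- the relative distance `1 - √(ρ/ρ₀)` from close packing -/
noncomputable def gap (a ρ : ℝ) : ℝ := 1 - √(ρ / rho0 a)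

theorem gap_facts {a : ℝ} (ha : 0 < a) {ρ : ℝ} (hρ : 0 < ρ) (hρ' : ρ < rho0 a) :
    0 < gap a ρ ∧ gap a ρ < 1 ∧ 1 - ρ / rho0 a ≤ 2 * gap a ρ ∧ gap a ρ ≤ 1 - ρ / rho0 a := by
  have hr0 := rho0_pos ha
  have h1 : 0 < ρ / rho0 a := by positivity
  have h2 : ρ / rho0 a < 1 := (div_lt_one hr0).mpr hρ'
  have h3 : 0 < √(ρ / rho0 a) := Real.sqrt_pos.mpr h1
  have h4 := Real.sq_sqrt h1.le
  have h5 : √(ρ / rho0 a) < 1 := by
    rw [Real.sqrt_lt' one_pos]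
    linarith
  unfold gap
  refine ⟨by linarith, by linarith, by nlinarith, by nlinarith⟩

theorem freeSide_two {a : ℝ} (ha : 0 < a) {ρ : ℝ} (hρ : 0 < ρ) (hρ' : ρ < rho0 a) :
    gap a ρ ≤ freeSide 2 a ρ ∧ freeSide 2 a ρ ≤ 4 * K * gap a ρ := by
  have hr0 := rho0_pos ha
  obtain ⟨h1, h2, h3, h4⟩ := gap_facts ha hρ hρ'
  have hK := K_ge
  constructor
  · have h5 := freeSide_packing (d := 2) (by norm_num) a (√ρ) (Real.sqrt_pos.mpr hρ)
      (by rw [Real.sq_sqrt hρ.le, closePacking_eq ha]; exact hρ')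
    rw [Real.sq_sqrt hρ.le, closePacking_eq ha] at h5
    unfold gap
    rw [Real.sqrt_div' _ hr0.le]
    have e : rho0 a ^ ((1 : ℝ) / ((2 : ℕ) : ℝ)) = √(rho0 a) := by
      rw [Real.sqrt_eq_rpow]
      norm_num
    rwa [e] at h5
  · refine (freeSide_le ha hρ hρ').trans ?_
    nlinarith

/-- **The free energy of hard disks.** -/
theorem free_two {a : ℝ} (ha : 0 < a) {ρ f : ℝ} (hρ : 0 < ρ) (hρ' : ρ < rho0 a)
    (hf : IsFreeEnergy 2 a ρ f) :
    Real.log ρ - 1 - 2 * Real.log (gap a ρ) - 2 * Real.log (4 * K) ≤ f ∧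
      f ≤ Real.log ρ - 1 - 2 * Real.log (gap a ρ) := by
  obtain ⟨h1, h2, h3, h4⟩ := gap_facts ha hρ hρ'
  obtain ⟨h5, h6⟩ := freeSide_two ha hρ hρ'
  have hK := K_ge
  have h7 := freeSide_of_isFreeEnergy (d := 2) (by norm_num) a ρ f hρ hf
  have h8 : Real.log (freeSide 2 a ρ) = -(f - (Real.log ρ - 1)) / 2 := by
    rw [h7, Real.log_exp]
    norm_num
  have h9 : 0 < freeSide 2 a ρ := lt_of_lt_of_le h1 h5
  have h10 := Real.log_le_log h1 h5
  have h11 := Real.log_le_log h9 h6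
  rw [Real.log_mul (by positivity) h1.ne'] at h11
  constructor <;> linarith

end Pool.Agent.H610.HD
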