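import Pool.Agent.H610.HD.Enc2
import Pool.Agent.H610.HD.Geo
import Pool.Agent.H286.HD610.Cap
import Pool.Agent.H284.HD610.Arc
import Pool.Agent.H401.HD610.Ang
import Pool.Agent.H658.HD610.Tri
import Pool.Agent.H307.HD610.Vol

/-!
# The volume of the configuration space of hard disks near close packing
-/

set_option autoImplicit false

open MeasureTheory Set Filter

namespace Pool.Agent.H610.HD

theorem s_geo : S_geo :=
  geo Pool.Agent.H286.HD610.cap Pool.Agent.H284.HD610.arc Pool.Agent.H401.HD610.ang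

theorem s_tri : S_tri := Pool.Agent.H658.HD610.tri

theorem s_vol : S_vol := Pool.Agent.H307.HD610.vol

/-- the point of the complex plane -/
def toC (y : Fin 2 → ℝ) : ℂ := ⟨y 0, y 1⟩

theorem norm_toC (u v : Fin 2 → ℝ) : ‖toC u - toC v‖ ^ 2 = ∑ k, (u k - v k) ^ 2 := by
  rw [Complex.sq_norm, Complex.normSq_apply, Fin.sum_univ_two, toC, toC, Complex.sub_re,
    Complex.sub_im]
  ring

/-- the configurations -/
def X (N : ℕ) (L : ℝ) : Set (Fin N → Fin 2 → ℝ) :=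
  {x | (∀ i k, 0 ≤ x i k ∧ x i k ≤ L) ∧ ∀ i j, i ≠ j → 4 ≤ ∑ k, (x i k - x j k) ^ 2}

theorem sep_of_X {N : ℕ} {L : ℝ} {x : Fin N → Fin 2 → ℝ} (hx : x ∈ X N L) (i j : Fin N)
    (hij : i ≠ j) : 2 ≤ ‖toC (x i) - toC (x j)‖ := by
  have h1 := hx.2 i j hij
  rw [← norm_toC] at h1
  have h2 := norm_nonneg (toC (x i) - toC (x j))
  nlinarith

theorem box_of_X {N : ℕ} {L : ℝ} {x : Fin N → Fin 2 → ℝ} (hx : x ∈ X N L) (i : Fin N) :
    0 ≤ (toC (x i)).re ∧ (toC (x i)).re ≤ L ∧ 0 ≤ (toC (x i)).im ∧ (toC (x i)).im ≤ L :=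
  ⟨(hx.1 i 0).1, (hx.1 i 0).2, (hx.1 i 1).1, (hx.1 i 1).2⟩

/-- the images of the rounded configurations -/
def Im (N : ℕ) (L δ : ℝ) : Set (Finset (Fin 2 → ℤ)) :=
  {S | ∃ x ∈ X N L, S = Finset.univ.image fun i => rdv δ (x i)}

theorem rdv_eq {δ : ℝ} {u v : Fin 2 → ℝ} (h : rd δ (toC u) = rd δ (toC v)) :
    rdv δ u = rdv δ v := by
  simp only [rd, toC, Prod.mk.injEq] at h
  funext k
  fin_cases k
  · exact h.1
  · exact h.2

theorem count (N : ℕ) (L δ : ℝ) (hL : 0 ≤ L) (hδ : 0 < δ) (hδ' : δ ≤ 1 / 100)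
    (hM : (L + 2 * R) ^ 2 - 2 * √3 * N ≤ δ * (L + 2 * R) ^ 2) :
    (Im N L δ).Finite ∧ ((Im N L δ).ncard : ℝ) ≤ Real.exp (2021 * (L + 2 * R) ^ 2) := by
  classical
  set M := (L + 2 * R) ^ 2 with hMdef
  have hR := R_pos
  have hex : ∀ S : Finset (Fin 2 → ℤ), ∃ x : Fin N → Fin 2 → ℝ, ∃ f : Pt → Code, S ∈ Im N L δ →
      x ∈ X N L ∧ S = (Finset.univ.image fun i => rdv δ (x i)) ∧
      IsCode δ (fun i => toC (x i)) f ∧ (∀ c, c ∉ Kset L → f c = none) ∧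
      (∀ c, f c ∈ CS (⌊1 / δ⌋ + 1) (⌊1 / δ⌋₊ + 1)) ∧
      Real.exp (-(2000 * M)) ≤ ∏ c ∈ Kset L, wt δ (f c) := by
    intro S
    by_cases hS : S ∈ Im N L δ
    · obtain ⟨x, hx, hxS⟩ := hS
      obtain ⟨η, h1, h2, h3⟩ := s_geo N L (fun i => toC (x i)) hL (box_of_X hx) (sep_of_X hx)
      obtain ⟨f, g1, g2, g3, g4⟩ := exists_code s_tri hδ hδ' (fun i => toC (x i)) (box_of_X hx)
        (sep_of_X hx) η h1 h3
      refine ⟨x, f, fun _ => ⟨hx, hxS, g1, g2, g3, le_trans ?_ g4⟩⟩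
      refine Real.exp_le_exp.mpr ?_
      rw [neg_div, neg_le_neg_iff, div_le_iff₀ hδ]
      nlinarith
    · exact ⟨fun _ _ => 0, fun _ => none, fun h => absurd h hS⟩
  choose xs fs hfs using hex
  have key := count_abs (κ := Kset L) (Im N L δ) (CS (⌊1 / δ⌋ + 1) (⌊1 / δ⌋₊ + 1)) (wt δ)
    (wt_nonneg δ) (2000 * M) (fun S c => fs S c) ?_ ?_ ?_
  · refine ⟨key.1, key.2.trans ?_⟩
    have h1 := sum_wt_le hδ hδ' (⌊1 / δ⌋₊ + 1)
    have h2 : (0 : ℝ) ≤ ∑ c ∈ CS (⌊1 / δ⌋ + 1) (⌊1 / δ⌋₊ + 1), wt δ c :=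
      Finset.sum_nonneg fun c _ => wt_nonneg δ c
    have h3 : (Fintype.card (Kset L) : ℝ) ≤ M := by
      rw [Fintype.card_coe]
      unfold Kset
      rw [Finset.card_product, Int.card_Icc]
      have h4 : (((⌊L⌋ + 1 - 0).toNat : ℕ) : ℝ) ≤ L + 2 * R := by
        have h5 : 0 ≤ ⌊L⌋ := Int.floor_nonneg.mpr hL
        have h6 : (((⌊L⌋ + 1 - 0).toNat : ℕ) : ℤ) = ⌊L⌋ + 1 := by omega
        have h7 : (((⌊L⌋ + 1 - 0).toNat : ℕ) : ℝ) = ((⌊L⌋ + 1 : ℤ) : ℝ) := by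
          exact_mod_cast congrArg (Int.cast : ℤ → ℝ) h6
        rw [h7]
        push_cast
        have h8 := Int.floor_le L
        have h9 := two_lt
        linarith
      push_cast
      rw [hMdef, pow_two]
      gcongr
    have h10 : (10 : ℝ) ^ 9 ≤ Real.exp 21 := by
      have h11 := Real.exp_one_gt_d9
      have h12 : Real.exp 21 = Real.exp 1 ^ 21 := by
        rw [← Real.exp_nat_mul]
        norm_num
      rw [h12]
      calc (10 : ℝ) ^ 9 ≤ (2.7182 : ℝ) ^ 21 := by norm_num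
        _ ≤ Real.exp 1 ^ 21 := by
            gcongr
            linarith
    calc Real.exp (2000 * M) * (∑ c ∈ CS (⌊1 / δ⌋ + 1) (⌊1 / δ⌋₊ + 1), wt δ c) ^
          (Fintype.card (Kset L))
        ≤ Real.exp (2000 * M) * (Real.exp 21) ^ (Fintype.card (Kset L)) := by
          gcongr
          exact h1.trans h10
      _ = Real.exp (2000 * M + (Fintype.card (Kset L) : ℝ) * 21) := by
          rw [← Real.exp_nat_mul, Real.exp_add]
      _ ≤ Real.exp (2021 * M) := Real.exp_le_exp.mpr (by linarith)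
  · intro S hS S' hS' hSS'
    obtain ⟨a1, a2, a3, a4, a5, a6⟩ := hfs S hS
    obtain ⟨b1, b2, b3, b4, b5, b6⟩ := hfs S' hS'
    have hff : fs S = fs S' := by
      funext c
      by_cases hc : c ∈ Kset L
      · exact congrFun hSS' ⟨c, hc⟩
      · rw [a4 c hc, b4 c hc]
    rw [hff] at a3
    rw [a2, b2]
    ext y
    simp only [Finset.mem_image, Finset.mem_univ, true_and]
    constructor
    · rintro ⟨i, rfl⟩
      obtain ⟨i', _, h2⟩ := code_unique (cl_inj (sep_of_X a1)) (cl_inj (sep_of_X b1)) a3 b3 i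
      exact ⟨i', rdv_eq h2⟩
    · rintro ⟨i, rfl⟩
      obtain ⟨i', _, h2⟩ := code_unique (cl_inj (sep_of_X b1)) (cl_inj (sep_of_X a1)) b3 a3 i
      exact ⟨i', rdv_eq h2⟩
  · intro S hS c
    exact (hfs S hS).2.2.2.2.1 c
  · intro S hS
    have h1 := (hfs S hS).2.2.2.2.2
    rwa [← Finset.prod_coe_sort] at h1

/-- **The volume of the configuration space.** -/
theorem volume_X (N : ℕ) (L δ : ℝ) (hL : 0 ≤ L) (hδ : 0 < δ) (hδ' : δ ≤ 1 / 100)
    (hM : (L + 2 * R) ^ 2 - 2 * √3 * N ≤ δ * (L + 2 * R) ^ 2) :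
    (volume (X N L)).toReal ≤ N.factorial * (Real.exp 4042 * δ) ^ (2 * N) := by
  obtain ⟨h1, h2⟩ := count N L δ hL hδ hδ' hM
  set M := (L + 2 * R) ^ 2 with hMdef
  have h3 := s_vol N δ (X N L) (Im N L δ).ncard hδ (by linarith) (fun x hx => hx.2) h1 le_rfl
  refine (ENNReal.toReal_le_of_le_ofReal (by positivity) h3).trans ?_
  have hMN : M ≤ 4 * N := by
    have h4 := sqrt3_lt
    have hN : (0 : ℝ) ≤ N := Nat.cast_nonneg N
    have hM0 : 0 ≤ M := sq_nonneg _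
    nlinarith
  have h5 : ((Im N L δ).ncard : ℝ) ≤ Real.exp 4042 ^ (2 * N) := by
    refine h2.trans ?_
    rw [← Real.exp_nat_mul]
    refine Real.exp_le_exp.mpr ?_
    push_cast
    linarith
  rw [mul_pow, mul_assoc]
  gcongr

end Pool.Agent.H610.HD
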