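import Pool.Agent.H610.HD.Lim
import Pool.Agent.H610.HD.Stm3

/-!
# Hard disks near close packing: pressure and first-order transitions
-/

set_option autoImplicit false

open MeasureTheory Set Filter Topology

namespace Pool.Agent.H610.HD

open Pool.Agent.K4H96.HS

/-- the tangent of a function which is midpoint convex along a dyadic sequence -/
theorem tangent (φ : ℝ → ℝ) (x t φ' : ℝ) (ht : 0 < t) (hd : HasDerivAt φ φ' x)
    (hm : ∀ n : ℕ, 2 * φ (x + t / 2 ^ (n + 1)) ≤ φ x + φ (x + t / 2 ^ n)) :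
    φ' * t ≤ φ (x + t) - φ x := by
  have h1 : ∀ n : ℕ, 2 ^ n * (φ (x + t / 2 ^ n) - φ x) ≤ φ (x + t) - φ x := by
    intro n
    induction n with
    | zero => simp
    | succ n ih =>
      refine le_trans ?_ ih
      have h2 := hm n
      have h3 : (0 : ℝ) < 2 ^ n := by positivity
      generalize φ (x + t / 2 ^ (n + 1)) = A at h2 ⊢
      rw [pow_succ]
      nlinarith
  have h2 : Tendsto (fun n : ℕ => t / (2 : ℝ) ^ n) atTop (𝓝[≠] 0) := by
    refine tendsto_nhdsWithin_iff.mpr ⟨?_, Eventually.of_forall fun n => ?_⟩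
    · refine tendsto_const_nhds.div_atTop ?_
      exact tendsto_pow_atTop_atTop_of_one_lt (by norm_num)
    · simp only [mem_compl_iff, mem_singleton_iff]
      positivity
  have h3 := (hasDerivAt_iff_tendsto_slope_zero.mp hd).comp h2
  have h4 := h3.mul_const t
  refine le_of_tendsto h4 (Eventually.of_forall fun n => ?_)
  have h5 := h1 n
  simp only [Function.comp, smul_eq_mul]
  have e : (t / 2 ^ n)⁻¹ * (φ (x + t / 2 ^ n) - φ x) * t =
      2 ^ n * (φ (x + t / 2 ^ n) - φ x) := by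
    field_simp
  rw [e]
  exact h5

/-- the comparison density: `√(ρ'/ρ₀) = y (3 - y) / 2` for `y = √(ρ/ρ₀)` -/
noncomputable def nxt (a ρ : ℝ) : ℝ := ρ * ((2 + gap a ρ) / 2) ^ 2

theorem nxt_facts {a : ℝ} (ha : 0 < a) {ρ : ℝ} (hρ : 0 < ρ) (hρ' : ρ < rho0 a) :
    ρ < nxt a ρ ∧ nxt a ρ < rho0 a ∧ gap a (nxt a ρ) = gap a ρ * (1 + gap a ρ) / 2 ∧
      nxt a ρ * gap a ρ ≤ 9 / 4 * (nxt a ρ - ρ) := by
  obtain ⟨h1, h2, h3, h4⟩ := gap_facts ha hρ hρ'
  have hr0 := rho0_pos ha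
  set s := gap a ρ with hs
  have hy : √(ρ / rho0 a) = 1 - s := by rw [hs]; unfold gap; ring
  have hsq : ρ / rho0 a = (1 - s) ^ 2 := by
    rw [← hy, Real.sq_sqrt (by positivity)]
  have hρe : ρ = rho0 a * (1 - s) ^ 2 := by
    rw [← hsq]
    field_simp
  have hn : nxt a ρ = rho0 a * ((1 - s) * ((2 + s) / 2)) ^ 2 := by
    unfold nxt
    rw [← hs]
    nth_rewrite 1 [hρe]
    ring
  have hnn : nxt a ρ / rho0 a = ((1 - s) * ((2 + s) / 2)) ^ 2 := by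
    rw [hn]
    field_simp
  have hpos : 0 < (1 - s) * ((2 + s) / 2) := by
    have : 0 < 1 - s := by linarith
    positivity
  refine ⟨?_, ?_, ?_, ?_⟩
  · unfold nxt
    rw [← hs]
    have : 1 < ((2 + s) / 2) ^ 2 := by nlinarith
    nlinarith
  · rw [← div_lt_one hr0, hnn]
    have : (1 - s) * ((2 + s) / 2) < 1 := by nlinarith
    nlinarith
  · unfold gap
    rw [hnn, Real.sqrt_sq hpos.le]
    ring
  · have e : nxt a ρ = ρ * ((2 + s) / 2) ^ 2 := by rw [hs]; rfl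
    rw [e]
    have e2 : 9 / 4 * (ρ * ((2 + s) / 2) ^ 2 - ρ) - ρ * ((2 + s) / 2) ^ 2 * s =
        ρ * s * ((9 / 4) * (1 + s / 4) - (1 + s / 2) ^ 2) := by ring
    have e3 : 0 ≤ (9 / 4) * (1 + s / 4) - (1 + s / 2) ^ 2 := by nlinarith
    have e4 : 0 ≤ ρ * s * ((9 / 4) * (1 + s / 4) - (1 + s / 2) ^ 2) := by positivity
    linarith

theorem free_diff {a : ℝ} (ha : 0 < a) {ρ f f₂ : ℝ} (hρ : 0 < ρ) (hρ' : ρ < rho0 a)
    (hf : IsFreeEnergy 2 a ρ f) (hf₂ : IsFreeEnergy 2 a (nxt a ρ) f₂) :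
    f₂ - f ≤ 2 * Real.log (12 * K) := by
  obtain ⟨h1, h2, h3, h4⟩ := gap_facts ha hρ hρ'
  obtain ⟨n1, n2, n3, _⟩ := nxt_facts ha hρ hρ'
  have hK := K_ge
  have g1 := (free_two ha hρ hρ' hf).1
  have g2 := (free_two ha (hρ.trans n1) n2 hf₂).2
  rw [n3] at g2
  have e1 : Real.log (nxt a ρ) = Real.log ρ + 2 * Real.log ((2 + gap a ρ) / 2) := by
    unfold nxt
    rw [Real.log_mul hρ.ne' (by positivity), Real.log_pow]
    norm_num
  have e2 : Real.log (gap a ρ * (1 + gap a ρ) / 2) =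
      Real.log (gap a ρ) + Real.log ((1 + gap a ρ) / 2) := by
    rw [mul_div_assoc, Real.log_mul h1.ne' (by positivity)]
  rw [e1, e2] at g2
  have e3 : Real.log ((2 + gap a ρ) / 2) ≤ Real.log (3 / 2) :=
    Real.log_le_log (by positivity) (by linarith)
  have e4 : Real.log (1 / 2) ≤ Real.log ((1 + gap a ρ) / 2) :=
    Real.log_le_log (by norm_num) (by linarith)
  have e5 : Real.log (12 * K) = Real.log (3 / 2) + (-Real.log (1 / 2)) + Real.log (4 * K) := by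
    rw [← Real.log_inv, ← Real.log_mul (by norm_num) (by norm_num),
      ← Real.log_mul (by norm_num) (by positivity)]
    congr 1
    norm_num
    ring
  linarith

/-- lower bound of the pressure `p = ρ² f'(ρ)` -/
theorem pressure_lower {a : ℝ} (ha : 0 < a) {ρ f' : ℝ} (f : ℝ → ℝ) (hρ : 0 < ρ)
    (hρ' : ρ < rho0 a) (hf : ∀ᶠ r in 𝓝[≤] ρ, IsFreeEnergy 2 a r (f r))
    (hder : HasDerivWithinAt f f' (Iic ρ) ρ) : 1 / (4 * K * gap a ρ) ≤ ρ * f' := by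
  have h1 := pressure_ineq (d := 2) (by norm_num) a ρ f' f hρ hf hder
  refine le_trans ?_ h1
  have hρf : IsFreeEnergy 2 a ρ (f ρ) := hf.self_of_nhdsWithin (mem_Iic.mpr le_rfl)
  have h2 := freeSide_of_isFreeEnergy (d := 2) (by norm_num) a ρ (f ρ) hρ hρf
  obtain ⟨h3, h4⟩ := freeSide_two ha hρ hρ'
  obtain ⟨g1, _⟩ := gap_facts ha hρ hρ'
  have hK := K_ge
  have e : Real.exp ((f ρ - (Real.log ρ - 1)) / ((2 : ℕ) : ℝ)) = 1 / freeSide 2 a ρ := by
    rw [h2, one_div, ← Real.exp_neg]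
    congr 1
    ring
  rw [e]
  have h5 : 0 < freeSide 2 a ρ := lt_of_lt_of_le g1 h3
  exact one_div_le_one_div_of_le h5 h4

/-- upper bound of the pressure -/
theorem pressure_upper (hmid : S_mid) {a : ℝ} (ha : 0 < a) {ρ f' : ℝ} (f : ℝ → ℝ) (hρ : 0 < ρ)
    (hρ' : ρ < rho0 a) (hf : ∀ r ∈ Icc ρ (nxt a ρ), IsFreeEnergy 2 a r (f r))
    (hder : HasDerivAt f f' ρ) : ρ * f' ≤ 9 / 2 * Real.log (12 * K) / gap a ρ := by
  obtain ⟨g1, _⟩ := gap_facts ha hρ hρ'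
  obtain ⟨n1, n2, n3, n4⟩ := nxt_facts ha hρ hρ'
  set t := nxt a ρ - ρ with ht
  have ht0 : 0 < t := by linarith
  have hφ : HasDerivAt (fun r => r * f r) (1 * f ρ + ρ * f') ρ := (hasDerivAt_id ρ).mul hder
  have hmem : ∀ n : ℕ, ρ + t / 2 ^ n ∈ Icc ρ (nxt a ρ) := by
    intro n
    have h2 : t / 2 ^ n ≤ t := div_le_self ht0.le (one_le_pow₀ (by norm_num))
    have h3 : 0 ≤ t / 2 ^ n := by positivity
    exact ⟨by linarith, by linarith⟩
  have hfd := free_diff ha hρ hρ' (hf ρ ⟨le_rfl, n1.le⟩) (hf _ ⟨n1.le, le_rfl⟩)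
  have h1 := tangent (fun r => r * f r) ρ t _ ht0 hφ ?_
  · have e1 : ρ + t = nxt a ρ := by rw [ht]; ring
    rw [e1] at h1
    -- `ρ f' t ≤ ρ' (f(ρ') - f(ρ))`
    have h2 : ρ * f' * t ≤ nxt a ρ * (f (nxt a ρ) - f ρ) := by
      have e2 : (1 * f ρ + ρ * f') * t = f ρ * nxt a ρ - f ρ * ρ + ρ * f' * t := by
        rw [ht]
        ring
      rw [e2] at h1
      linarith
    have hn0 : 0 < nxt a ρ := hρ.trans n1
    have h3 : ρ * f' * t ≤ nxt a ρ * (2 * Real.log (12 * K)) :=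
      h2.trans (by gcongr)
    have hlog : 0 ≤ Real.log (12 * K) := Real.log_nonneg (by linarith [K_ge])
    rw [le_div_iff₀ g1]
    have h4 : ρ * f' * t * gap a ρ ≤ 9 / 2 * Real.log (12 * K) * t := by
      calc ρ * f' * t * gap a ρ ≤ nxt a ρ * (2 * Real.log (12 * K)) * gap a ρ := by gcongr
        _ = (nxt a ρ * gap a ρ) * (2 * Real.log (12 * K)) := by ring
        _ ≤ (9 / 4 * t) * (2 * Real.log (12 * K)) := by gcongr
        _ = 9 / 2 * Real.log (12 * K) * t := by ring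
    nlinarith
  · intro n
    have h5 := hmid a ρ (ρ + t / 2 ^ n) (f ρ) (f (ρ + t / 2 ^ n)) (f (ρ + t / 2 ^ (n + 1))) ha hρ
      (lt_of_lt_of_le hρ (hmem n).1) (hf ρ ⟨le_rfl, n1.le⟩) (hf _ (hmem n)) ?_
    · have e3 : ρ + (ρ + t / 2 ^ n) = 2 * (ρ + t / 2 ^ (n + 1)) := by
        rw [pow_succ]
        field_simp
        ring
      rw [e3] at h5
      linarith
    · have e4 : (ρ + (ρ + t / 2 ^ n)) / 2 = ρ + t / 2 ^ (n + 1) := by
        rw [pow_succ]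
        field_simp
        ring
      rw [e4]
      exact hf _ (hmem (n + 1))

/-- first-order transitions: the relative distances of the two phases from close packing are
comparable -/
theorem transition {a : ℝ} (ha : 0 < a) {ρ₁ ρ₂ p c : ℝ} (h₁ : 0 < ρ₁) (h₁₂ : ρ₁ < ρ₂)
    (h₂ : ρ₂ < rho0 a) (hf : ∀ r ∈ Icc ρ₁ ρ₂, IsFreeEnergy 2 a r (c - p / r)) :
    gap a ρ₁ ≤ 18 * K * Real.log (12 * K) * gap a ρ₂ := by
  have hρ₂ : 0 < ρ₂ := h₁.trans h₁₂
  obtain ⟨g1, g2, _⟩ := gap_facts ha h₁ (h₁₂.trans h₂)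
  obtain ⟨g3, _⟩ := gap_facts ha hρ₂ h₂
  have hK := K_ge
  have hlog : 1 ≤ Real.log (12 * K) := by
    unfold K
    rw [Real.log_mul (by norm_num) (Real.exp_ne_zero _), Real.log_exp]
    have : 0 ≤ Real.log 12 := Real.log_nonneg (by norm_num)
    linarith
  have hder : HasDerivWithinAt (fun r => c - p / r) (p / ρ₂ ^ 2) (Iic ρ₂) ρ₂ := by
    have h3 : HasDerivAt (fun r : ℝ => c - p / r) (-(p * -(ρ₂ ^ 2)⁻¹)) ρ₂ := by
      have := ((hasDerivAt_inv hρ₂.ne').const_mul p).const_sub c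
      exact this
    have e : -(p * -(ρ₂ ^ 2)⁻¹) = p / ρ₂ ^ 2 := by ring
    rw [e] at h3
    exact h3.hasDerivWithinAt
  have hev : ∀ᶠ r in 𝓝[≤] ρ₂, IsFreeEnergy 2 a r (c - p / r) := by
    have h4 : Ioc ρ₁ ρ₂ ∈ 𝓝[≤] ρ₂ := Ioc_mem_nhdsLE h₁₂
    filter_upwards [h4] with r hr
    exact hf r ⟨hr.1.le, hr.2⟩
  have hlow := pressure_lower ha (fun r => c - p / r) hρ₂ h₂ hev hder
  have e1 : ρ₂ * (p / ρ₂ ^ 2) = p / ρ₂ := by field_simp
  rw [e1, div_le_div_iff₀ (by positivity) hρ₂, one_mul] at hlow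
  obtain ⟨n1, n2, n3, n4⟩ := nxt_facts ha h₁ (h₁₂.trans h₂)
  rcases le_or_gt (nxt a ρ₁) ρ₂ with hcase | hcase
  · have hfd := free_diff ha h₁ (h₁₂.trans h₂) (hf ρ₁ ⟨le_rfl, h₁₂.le⟩) (hf _ ⟨n1.le, hcase⟩)
    have hn0 : 0 < nxt a ρ₁ := h₁.trans n1
    have h5 : p * (nxt a ρ₁ - ρ₁) ≤ 2 * Real.log (12 * K) * (ρ₁ * nxt a ρ₁) := by
      have e2 : c - p / nxt a ρ₁ - (c - p / ρ₁) = p * (nxt a ρ₁ - ρ₁) / (ρ₁ * nxt a ρ₁) := by
        field_simp
        ring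
      rw [e2, div_le_iff₀ (by positivity)] at hfd
      exact hfd
    have hp : 0 < p := by
      have : 0 < p * (4 * K * gap a ρ₂) := lt_of_lt_of_le hρ₂ hlow
      by_contra hcon
      push Not at hcon
      have : p * (4 * K * gap a ρ₂) ≤ 0 := mul_nonpos_of_nonpos_of_nonneg hcon (by positivity)
      linarith
    -- `p gap ≤ (9/2) log (12K) ρ₁`
    have h6 : p * gap a ρ₁ ≤ 9 / 2 * Real.log (12 * K) * ρ₁ := by
      have h7 : p * gap a ρ₁ * nxt a ρ₁ ≤ 9 / 2 * Real.log (12 * K) * ρ₁ * nxt a ρ₁ := by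
        calc p * gap a ρ₁ * nxt a ρ₁ = p * (nxt a ρ₁ * gap a ρ₁) := by ring
          _ ≤ p * (9 / 4 * (nxt a ρ₁ - ρ₁)) := by gcongr
          _ = 9 / 4 * (p * (nxt a ρ₁ - ρ₁)) := by ring
          _ ≤ 9 / 4 * (2 * Real.log (12 * K) * (ρ₁ * nxt a ρ₁)) := by gcongr
          _ = _ := by ring
      exact le_of_mul_le_mul_right h7 hn0
    have h8 : ρ₂ * gap a ρ₁ ≤ 18 * K * Real.log (12 * K) * gap a ρ₂ * ρ₁ := by
      calc ρ₂ * gap a ρ₁ ≤ p * (4 * K * gap a ρ₂) * gap a ρ₁ := by gcongr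
        _ = (4 * K * gap a ρ₂) * (p * gap a ρ₁) := by ring
        _ ≤ (4 * K * gap a ρ₂) * (9 / 2 * Real.log (12 * K) * ρ₁) := by gcongr
        _ = _ := by ring
    have h9 : ρ₂ * gap a ρ₁ ≤ ρ₂ * (18 * K * Real.log (12 * K) * gap a ρ₂) := by
      refine h8.trans ?_
      rw [mul_comm]
      have : 0 ≤ 18 * K * Real.log (12 * K) * gap a ρ₂ := by positivity
      exact mul_le_mul_of_nonneg_right h₁₂.le this
    exact le_of_mul_le_mul_left h9 hρ₂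
  · have h5 : gap a (nxt a ρ₁) ≤ gap a ρ₂ := by
      unfold gap
      have : √(ρ₂ / rho0 a) ≤ √(nxt a ρ₁ / rho0 a) := by
        refine Real.sqrt_le_sqrt ?_
        have := rho0_pos ha
        gcongr
      linarith
    rw [n3] at h5
    have h6 : gap a ρ₁ ≤ 2 * gap a ρ₂ := by nlinarith
    have h7 : (2 : ℝ) ≤ 18 * K * Real.log (12 * K) := by nlinarith
    calc gap a ρ₁ ≤ 2 * gap a ρ₂ := h6
      _ ≤ _ := by gcongr

end Pool.Agent.H610.HD
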