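import Mathlib

/-!
# Hard disks near close packing: statements of the lemmas, with paper proofs in the docstrings

Goal (MP_09cbbd_mp, hard disks): the configuration space of `N` unit disks in a square at relative
distance `δ` from close packing has volume at most `N! (C δ)^(2N)`.
-/

set_option autoImplicit false

open MeasureTheory Set Filter

namespace Pool.Agent.H610.HD

/-- radius of the truncated cells -/
noncomputable def R : ℝ := 2 / √3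

/-- area of a circular segment of half angle `t` of the unit disc -/
noncomputable def g (t : ℝ) : ℝ := t - Real.sin t * Real.cos t

/-- half angle of the segment which the bisector at distance `d / 2` cuts off the disc of radius
`R` -/
noncomputable def al (d : ℝ) : ℝ := Real.arccos (d / (2 * R))

/-- **Area of a cap.** Paper proof: translate `p` to `0` and rotate (multiplication by a unit complex
number is measure preserving, `rotation`) so that `q = d > 0`, `d ≤ 2r`. The condition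
`‖z - q‖ ≤ ‖z - p‖` becomes `Re z ≥ d/2`. The set is contained in the region between the graphs of
`-√(r²-x²)` and `√(r²-x²)` over `x ∈ [d/2, r]` (up to a null set; use
`volume_regionBetween_eq_integral` and `Complex.volume_preserving_equiv_real_prod`), so its area is at
most `∫_{d/2}^r 2 √(r²-x²) dx`, and `x √(r²-x²) - r² arccos (x/r)` is a primitive of `2 √(r²-x²)`
(continuous on `[d/2, r]`, differentiable inside). The value is
`r² arccos(d/(2r)) - (d/2) √(r² - d²/4) = r² (t - cos t sin t)` for `t = arccos (d/(2r))`. -/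
def S_cap : Prop := ∀ (p q : ℂ) (r : ℝ), 0 < r → 0 < ‖p - q‖ → ‖p - q‖ ≤ 2 * r →
  volume {z : ℂ | ‖z - p‖ < r ∧ ‖z - q‖ ≤ ‖z - p‖} ≤
    ENNReal.ofReal (r ^ 2 * g (Real.arccos (‖p - q‖ / (2 * r))))

/-- **Arcs on the circle.** `s` indexes disjoint arcs with centres `θ j` and half lengths
`α j ≤ π/6` on the circle of length `2π`. Put `e = 6 g(π/6) - Σ g(α j)`. Then `e ≥ 0`, and if
`e < 1/100` then near every point `θ₀` (distance at most `5π/12`) there are two of the centres whose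
half lengths are at least `π/6 - 8 e`.

Paper proof. (a) The open balls `ball (θ j) (α j)` are disjoint (`Metric.ball_disjoint_ball`), of
measure `2 α j` (`AddCircle.volume_closedBall`, `AddCircle.closedBall_ae_eq_ball`), so `Σ α j ≤ π`.
(b) `g` is convex on `[0, π/6]` (`g'' = 2 sin 2t ≥ 0`), `g 0 = 0`, `g (π/12) = π/12 - 1/4`,
`g (π/6) = π/6 - √3/4`. Put `c₀ = (6/π) g(π/6)`, `c₁ = (6/π)(1/2 - √3/4) > 1/8` (note
`c₁ = (6/π)(g(π/6) - 2 g(π/12))`) and `h(t) = c₀ t - g(t)`. By convexity on `[0, π/12]`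
(chord from `0` to `π/12`) `h(t) ≥ c₁ t` and on `[π/12, π/6]` (chord from `π/12` to `π/6`)
`h(t) ≥ c₁ (π/6 - t)`. In particular `h ≥ 0` and
`e = c₀ (π - Σ α j) + Σ h(α j) ≥ 0`, with all terms nonnegative.
(c) Call `j` strong if `α j ≥ π/12`. Then `π/6 - α j ≤ e/c₁ ≤ 8 e` for strong `j`,
`Σ_weak α j ≤ e/c₁ ≤ 8 e` and `π - Σ α j ≤ e/c₀ ≤ 6 e` (`c₀ > 1/6`). So
`Σ_strong 2 α j ≥ 2π - 28 e`.
(d) Suppose at most one strong `j₀` has `dist (θ j) θ₀ ≤ 5π/12`. For the other strong `j`,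
`dist (θ j) θ₀ > 5π/12 = π/4 + π/6 ≥ π/4 + α j`, so the balls `ball (θ j) (α j)`
(`j` strong, `j ≠ j₀`) and `ball θ₀ (π/4)` are disjoint, and `Σ_{strong, j ≠ j₀} 2 α j + π/2 ≤ 2π`.
Hence `Σ_strong 2 α j ≤ 2π - π/2 + 2 (π/6) = 2π - π/6`, and `28 e ≥ π/6 > 0.5`, contradiction. -/
def S_arc : Prop := ∀ (ι : Type) (s : Finset ι) (α : ι → ℝ) (θ : ι → AddCircle (2 * Real.pi)),
  (∀ j ∈ s, 0 ≤ α j ∧ α j ≤ Real.pi / 6) →
  (∀ j ∈ s, ∀ k ∈ s, j ≠ k → α j + α k ≤ dist (θ j) (θ k)) →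
  ∑ j ∈ s, g (α j) ≤ 6 * g (Real.pi / 6) ∧
  (6 * g (Real.pi / 6) - ∑ j ∈ s, g (α j) < 1 / 100 → ∀ θ₀ : AddCircle (2 * Real.pi),
    ∃ j ∈ s, ∃ k ∈ s, j ≠ k ∧ dist (θ j) θ₀ ≤ 5 * Real.pi / 12 ∧ dist (θ k) θ₀ ≤ 5 * Real.pi / 12 ∧
      Real.pi / 6 - α j ≤ 8 * (6 * g (Real.pi / 6) - ∑ i ∈ s, g (α i)) ∧
      Real.pi / 6 - α k ≤ 8 * (6 * g (Real.pi / 6) - ∑ i ∈ s, g (α i)))

/-- **Angles.** Three facts about nonzero complex numbers `a, b` (differences of centres).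

Paper proof. `dist (arg a) (arg b)` in `AddCircle (2π)` is `InnerProductGeometry.angle a b ∈ [0, π]`
(`Complex.angle_eq_abs_arg`, `Complex.arg_div_coe_angle`, `AddCircle.norm_coe_eq_abs_iff`).
(1) Let `2 ≤ ‖a‖, ‖b‖ < 2R` and `2 ≤ ‖a - b‖`; write `‖a‖ = 2R cos u`, `‖b‖ = 2R cos v`,
`u, v ∈ (0, π/6]`. If the angle `t` were `< u + v ≤ π/3`, then
`‖a - b‖² = ‖a‖² + ‖b‖² - 2‖a‖‖b‖ cos t < 4R² (cos² u + cos² v - 2 cos u cos v cos (u+v))
 = 4R² sin² (u+v) ≤ 4R² · 3/4 = 4`, contradiction.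
(2) If `dist (arg a) (-π/2) ≤ 5π/12` then `Im a = ‖a‖ sin (arg a) < 0`
(the cosine of the angle between `a` and `-i` is `-Im a / ‖a‖ ≥ cos (5π/12) > 0`).
(3) If moreover the same holds for `b` and `‖a‖, ‖b‖ ≤ 2007/1000`, the angle between `a` and `b` is
at most `5π/6`, so `‖a - b‖² ≤ ‖a‖² + ‖b‖² + √3 ‖a‖‖b‖ ≤ (2 + √3) · 2.007² ≤ 3.9²`. -/
def S_ang : Prop :=
  (∀ a b : ℂ, 2 ≤ ‖a‖ → ‖a‖ < 2 * R → 2 ≤ ‖b‖ → ‖b‖ < 2 * R → 2 ≤ ‖a - b‖ →
    al ‖a‖ + al ‖b‖ ≤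
      dist (Complex.arg a : AddCircle (2 * Real.pi)) (Complex.arg b : AddCircle (2 * Real.pi))) ∧
  (∀ a : ℂ, a ≠ 0 → dist (Complex.arg a : AddCircle (2 * Real.pi))
      ((-(Real.pi / 2) : ℝ) : AddCircle (2 * Real.pi)) ≤ 5 * Real.pi / 12 → a.im < 0) ∧
  (∀ a b : ℂ, a ≠ 0 → b ≠ 0 → ‖a‖ ≤ 2007 / 1000 → ‖b‖ ≤ 2007 / 1000 →
    dist (Complex.arg a : AddCircle (2 * Real.pi))
      ((-(Real.pi / 2) : ℝ) : AddCircle (2 * Real.pi)) ≤ 5 * Real.pi / 12 →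
    dist (Complex.arg b : AddCircle (2 * Real.pi))
      ((-(Real.pi / 2) : ℝ) : AddCircle (2 * Real.pi)) ≤ 5 * Real.pi / 12 → ‖a - b‖ ≤ 39 / 10)

/-- the mesh square of a point -/
noncomputable def rd (δ : ℝ) (z : ℂ) : ℤ × ℤ := (⌊z.re / δ⌋, ⌊z.im / δ⌋)

/-- the side of the line `pq` on which `z` lies -/
noncomputable def cr (p q z : ℂ) : ℝ := (z - p).re * (q - p).im - (z - p).im * (q - p).re

/-- `p, q, z` form a nondegenerate triangle, with the distances of `z` from `p` and `q` in prescribed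
intervals of length `δ` -/
def Tri (δ : ℝ) (m n : ℕ) (p q z : ℂ) : Prop :=
  2 ≤ ‖p - q‖ ∧ ‖p - q‖ ≤ 39 / 10 ∧ ‖z - p‖ ≤ 201 / 100 ∧ ‖z - q‖ ≤ 201 / 100 ∧
  2 + m * δ ≤ ‖z - p‖ ∧ ‖z - p‖ ≤ 2 + (m + 1) * δ ∧
  2 + n * δ ≤ ‖z - q‖ ∧ ‖z - q‖ ≤ 2 + (n + 1) * δ

/-- **The third vertex is determined up to `O(δ)`.**

Paper proof. `p' = p + O(√2 δ)`, `q' = q + O(√2 δ)`, so `|‖z - p‖ - ‖z' - p‖| ≤ δ + √2 δ ≤ 3 δ` and
the same for `q`. Put `u = q - p`, `D = ‖u‖ ∈ [2, 3.9]`; let `a, b` be the coordinates of `z - p` along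
`u` and orthogonal to it (`b = cr p q z / D` up to the sign convention), `a', b'` those of `z' - p`. Then
`a = (‖z-p‖² - ‖z-q‖² + D²)/(2D)`, `b² = ‖z-p‖² - a²`. So `|a - a'| ≤ 7 δ`,
`|b² - b'²| ≤ 40 δ`; also `a ≤ 1.96` (because `|‖z-p‖² - ‖z-q‖²| ≤ 0.041`; for `z'` use
`‖z'-p‖ ≤ 2.01 + √2 δ`) so `|b|, |b'| ≥ 0.3`.
`b` and `b'` have the same sign: `|cr p' q' z' - cr p q z'| ≤ 12 δ ≤ 0.12` while
`|cr p q z'| = D |b'| ≥ 0.6`. Hence `|b - b'| ≤ 40 δ / 0.6`, `‖z - z'‖ ≤ 80 δ`. -/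
def S_tri : Prop := ∀ δ : ℝ, 0 < δ → δ ≤ 1 / 100 → ∀ (m n : ℕ) (p q z p' q' z' : ℂ),
  rd δ p = rd δ p' → rd δ q = rd δ q' → Tri δ m n p q z → Tri δ m n p' q' z' →
  (0 ≤ cr p q z ↔ 0 ≤ cr p' q' z') →
  |(rd δ z).1 - (rd δ z').1| ≤ 100 ∧ |(rd δ z).2 - (rd δ z').2| ≤ 100

/-- the mesh square of a point of `ℝ²` -/
noncomputable def rdv (δ : ℝ) (y : Fin 2 → ℝ) : Fin 2 → ℤ := fun k => ⌊y k / δ⌋

/-- **From the volume to the number of rounded configurations.**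

Paper proof. For `x ∈ X` the rounded configuration `y = (rdv δ (x i))_i` is injective in `i` (points in
the same mesh square have distance at most `√2 δ < 2`). Let `Y` be the set of the rounded
configurations `y : Fin N → Fin 2 → ℤ`, and `I` the (finite) set of their images. `y` is determined by its
image `S ∈ I` and a bijection of `Fin N` with `S`, so `Y` is finite with at most `N! B` elements.
`X` is covered by the boxes `{x | ∀ i k, x i k ∈ [δ y i k, δ (y i k + 1))}`, `y ∈ Y`, of volume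
`δ^(2N)` (`Real.volume_pi_Ico`, `volume_pi_pi`). -/
def S_vol : Prop := ∀ (N : ℕ) (δ : ℝ) (X : Set (Fin N → Fin 2 → ℝ)) (B : ℕ), 0 < δ → δ ≤ 1 →
  (∀ x ∈ X, ∀ i j, i ≠ j → 4 ≤ ∑ k, (x i k - x j k) ^ 2) →
  {S : Finset (Fin 2 → ℤ) | ∃ x ∈ X, S = Finset.univ.image fun i => rdv δ (x i)}.Finite →
  {S : Finset (Fin 2 → ℤ) | ∃ x ∈ X, S = Finset.univ.image fun i => rdv δ (x i)}.ncard ≤ B →
  volume X ≤ ENNReal.ofReal ((N.factorial : ℝ) * B * δ ^ (2 * N))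

/-- **Thue's theorem with stability.** To be proved from `S_cap`, `S_arc`, `S_ang` by helper610. -/
def S_geo : Prop := ∀ (N : ℕ) (L : ℝ) (x : Fin N → ℂ), 0 ≤ L →
  (∀ i, 0 ≤ (x i).re ∧ (x i).re ≤ L ∧ 0 ≤ (x i).im ∧ (x i).im ≤ L) →
  (∀ i j, i ≠ j → 2 ≤ ‖x i - x j‖) →
  ∃ η : Fin N → ℝ, (∀ i, 0 ≤ η i) ∧ ∑ i, η i ≤ (L + 2 * R) ^ 2 - 2 * √3 * N ∧
    ∀ i, η i < 1 / 1000 → ∃ j k, j ≠ k ∧ (x j).im < (x i).im ∧ (x k).im < (x i).im ∧
      ‖x i - x j‖ ≤ 2 + 7 * η i ∧ ‖x i - x k‖ ≤ 2 + 7 * η i ∧ ‖x j - x k‖ ≤ 39 / 10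

end Pool.Agent.H610.HD
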