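import Mathlib
import Pool.Graph.R_pool_sql_team_seeded_c8625f6e.K4H96.HS.Defs
import Pool.Graph.R_pool_sql_team_seeded_1acbe0a2.Y371.SQ.Main

/-!
# Hard disks near close packing: the hexagonal packings
-/

set_option autoImplicit false

open MeasureTheory Set Filter

namespace Pool.Agent.H610.HD

open Pool.Agent.K4H96.HS

/-- **Hexagonal packings fit in large squares at all densities below `1/(2√3a²)`.**

Paper proof. `Pool.Agent.Y371.SQ.fits_many` (with `t = L/a`) gives `M` unit discs in a square of side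
`t + 2`, i.e. (`Pool.Agent.Y371.SQ.fits_iff`) `M` points of `[1, t + 1]²` with mutual distances at least
`2`, and `t² + (2/3) t - √3 ≤ 2 √3 M`. Subtract `1` from the coordinates and multiply by `a`: a
configuration of `M` points in `[0, L]²` with distances `≥ 2a`. As `ρ < 1/(2√3a²)`,
`ρ L² + 1 ≤ t²/(2√3) ≤ M` for large `L` (use `(2/3) t ≥ √3`), so `⌈ρ L²⌉₊ ≤ M`; restrict to the first
points (`Fin.castLE`). -/
def S_pack : Prop := ∀ a ρ : ℝ, 0 < a → 0 < ρ → ρ < 1 / (2 * √3 * a ^ 2) →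
  ∀ᶠ L : ℝ in atTop, (Conf ⌈ρ * L ^ 2⌉₊ 2 (2 * a) (Box 2 L)).Nonempty

end Pool.Agent.H610.HD
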